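import Pool.Agent.Y830.SQ.Recur
import Pool.Agent.Y835.SB.Mert

/-!
Mertens bounds for primes beyond `k`, and the ratio of the densities.
-/

set_option autoImplicit false

namespace Pool.Agent.Y830.SQ

open Finset
open Pool.Agent.Y835.SB

theorem mer_local : ∃ C : ℝ, 0 ≤ C ∧ ∀ k z : ℕ, 3 ≤ k → k ≤ z → ∀ Q : Finset ℕ,
    (∀ q ∈ Q, q.Prime ∧ k ≤ q ∧ q ≤ z) →
    ∑ q ∈ Q, 1 / (q : ℝ) ≤ Real.log (Real.log z / Real.log k) + C := by
  obtain ⟨C, hC0, hC⟩ := Pool.Agent.Helper923.HMertens.mertens_ratio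
  refine ⟨C + 1, by positivity, fun k z hk hkz Q hQ => ?_⟩
  have h1 := (abs_le.1 (hC k z (by omega) hkz)).2
  have hlk : 1 ≤ Real.log k := by
    rw [Real.le_log_iff_exp_le (by positivity)]
    have := Real.exp_one_lt_d9
    have h3 : (3 : ℝ) ≤ k := by exact_mod_cast hk
    linarith
  have h2 : C / Real.log k ≤ C := div_le_self hC0 hlk
  have hsub : Q ⊆ insert k ((Ioc k z).filter Nat.Prime) := by
    intro q hq
    obtain ⟨h3, h4, h5⟩ := hQ q hq
    rw [mem_insert, mem_filter, mem_Ioc]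
    by_cases h6 : q = k
    · exact Or.inl h6
    · exact Or.inr ⟨⟨by omega, h5⟩, h3⟩
  have h3 : ∑ q ∈ Q, 1 / (q : ℝ) ≤ 1 / (k : ℝ) + ∑ p ∈ (Ioc k z).filter Nat.Prime, 1 / (p : ℝ) := by
    refine (sum_le_sum_of_subset_of_nonneg hsub fun _ _ _ => by positivity).trans ?_
    rw [sum_insert (by simp)]
  have h4 : 1 / (k : ℝ) ≤ 1 := by
    have h5 : (1 : ℝ) ≤ k := by exact_mod_cast (by omega : 1 ≤ k)
    rw [div_le_one (by linarith)]
    exact h5
  linarith

/-- the ratio of the densities of consecutive orders -/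
theorem DD_ratio {s : ℕ} {Q : Finset ℕ} (hQ : ∀ q ∈ Q, 2 * (s + 1) < q) :
    DD s Q ≤ DD (s + 1) Q * Real.exp (∑ q ∈ Q, 1 / (q : ℝ) + 2 * (s + 1)) := by
  have hterm : ∀ q ∈ Q, 1 - (s : ℝ) / q ≤ (1 - ((s + 1 : ℕ) : ℝ) / q) *
      Real.exp (1 / (q : ℝ) + 2 * (s + 1) * (1 / ((q : ℝ) * (q - 1)))) := by
    intro q hq
    have h1 : (2 : ℝ) * (s + 1) < q := by exact_mod_cast hQ q hq
    have hs : (0 : ℝ) ≤ s := Nat.cast_nonneg s
    have hq0 : (0 : ℝ) < q := by linarith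
    have hq1 : (0 : ℝ) < q - 1 := by linarith
    have hqs : (0 : ℝ) < q - s - 1 := by linarith
    have h2 : 1 + 1 / ((q : ℝ) - s - 1) ≤
        Real.exp (1 / (q : ℝ) + 2 * (s + 1) * (1 / ((q : ℝ) * (q - 1)))) := by
      have h3 := Real.add_one_le_exp (1 / ((q : ℝ) - s - 1))
      refine le_trans (by linarith) (h3.trans (Real.exp_le_exp.2 ?_))
      have h4 : 1 / ((q : ℝ) - s - 1) = 1 / q + (s + 1) * (1 / (q * (q - s - 1))) := by
        field_simp
        ring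
      rw [h4]
      have h5 : 1 / ((q : ℝ) * (q - s - 1)) ≤ 2 * (1 / (q * (q - 1))) := by
        rw [mul_one_div, div_le_div_iff₀ (by positivity) (by positivity)]
        nlinarith
      have h6 := mul_le_mul_of_nonneg_left h5 (by linarith : (0 : ℝ) ≤ s + 1)
      linarith
    have h3 : 1 - (s : ℝ) / q = (1 - ((s + 1 : ℕ) : ℝ) / q) * (1 + 1 / ((q : ℝ) - s - 1)) := by
      push_cast
      field_simp
      ring
    rw [h3]
    refine mul_le_mul_of_nonneg_left h2 ?_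
    rw [sub_nonneg, div_le_one hq0]
    push_cast
    linarith
  have hnn : ∀ q ∈ Q, 0 ≤ 1 - (s : ℝ) / q := by
    intro q hq
    have h1 : (2 : ℝ) * (s + 1) < q := by exact_mod_cast hQ q hq
    have hs : (0 : ℝ) ≤ s := Nat.cast_nonneg s
    rw [sub_nonneg, div_le_one (by linarith)]
    linarith
  have h1 := prod_le_prod hnn hterm
  rw [prod_mul_distrib, ← Real.exp_sum, sum_add_distrib, ← mul_sum] at h1
  refine h1.trans ?_
  unfold DD
  refine mul_le_mul_of_nonneg_left (Real.exp_le_exp.2 ?_) ?_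
  · have h2 := sum_tele Q fun q hq => by have := hQ q hq; omega
    have hs : (0 : ℝ) ≤ s := Nat.cast_nonneg s
    nlinarith
  · refine prod_nonneg fun q hq => ?_
    have h1 : (2 : ℝ) * (s + 1) < q := by exact_mod_cast hQ q hq
    have hs : (0 : ℝ) ≤ s := Nat.cast_nonneg s
    rw [sub_nonneg, div_le_one (by linarith)]
    push_cast
    linarith

theorem DD_anti {s : ℕ} {Q : Finset ℕ} (hQ : ∀ q ∈ Q, 2 * (s + 1) < q) (hs : 1 ≤ s) :
    DD s Q ≤ 1 := by
  unfold DD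
  refine prod_le_one (fun q hq => ?_) fun q hq => ?_
  · have h1 : (2 : ℝ) * (s + 1) < q := by exact_mod_cast hQ q hq
    have hs : (0 : ℝ) ≤ s := Nat.cast_nonneg s
    rw [sub_nonneg, div_le_one (by linarith)]
    linarith
  · have : (0 : ℝ) ≤ (s : ℝ) / q := by positivity
    linarith

end Pool.Agent.Y830.SQ
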