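import Pool.Agent.Y830.SQ.Lev
import Pool.Agent.Y830.SQ.Mer

/-!
The binomial moments of the number of surviving sites under squares of functions of level `R`.
-/

set_option autoImplicit false

namespace Pool.Agent.Y830.SQ

open Finset
open Pool.Agent.Y835.SB

/-- the hypotheses on the sites `H`, the primes `P`, the modulus `W` and the period `N` -/
def Ok (H P : Finset ℕ) (W N : ℕ) : Prop :=
  0 < N ∧ ∀ p ∈ P, p.Prime ∧ p ∣ N ∧ ¬ p ∣ W ∧ Set.InjOn (fun h => h % p) (H : Set ℕ)

theorem Ok.sub {H P P' : Finset ℕ} {W N : ℕ} (h : Ok H P W N) (hs : P' ⊆ P) : Ok H P' W N :=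
  ⟨h.1, fun p hp => h.2 p (hs hp)⟩

theorem Ok.card_le {H P : Finset ℕ} {W N : ℕ} (h : Ok H P W N) {p : ℕ} (hp : p ∈ P) :
    H.card ≤ p := by
  obtain ⟨h1, _, _, h4⟩ := h.2 p hp
  have h2 : H.card ≤ (range p).card := by
    refine card_le_card_of_injOn (fun h => h % p) ?_ h4
    intro h _
    rw [mem_coe, mem_range]
    exact Nat.mod_lt _ h1.pos
  rwa [card_range] at h2

/-- the asymptotic formula for the moment of order `r` -/
def PP (r : ℕ) : Prop := ∀ ε : ℝ, 0 < ε → ∃ C : ℝ, 0 < C ∧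
  ∀ (R : ℝ) (H P : Finset ℕ) (W N : ℕ) (V : ℕ → ℝ), 2 ≤ R → C * Real.log R ≤ H.card →
    Ok H P W N → IsWeight W N R V →
    |Bin N H r V P - (H.card.choose r : ℕ) * DD r P * SS N V| ≤
      ε * ((H.card.choose r : ℕ) * DD r P * SS N V)

theorem SV_empty (H : Finset ℕ) (n : ℕ) : SV H ∅ n = H := by
  unfold SV
  exact filter_true_of_mem fun h _ q hq => absurd hq (notMem_empty q)

theorem Bin_empty (N : ℕ) (H : Finset ℕ) (r : ℕ) (V : ℕ → ℝ) :
    Bin N H r V ∅ = (H.card.choose r : ℕ) * SS N V := by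
  unfold Bin SS
  rw [mul_sum]
  refine sum_congr rfl fun n _ => ?_
  rw [SV_empty, mul_comm]

theorem PP_zero : PP 0 := by
  intro ε hε
  refine ⟨1, one_pos, fun R H P W N V hR hH hok hV => ?_⟩
  have h1 : Bin N H 0 V P = SS N V := by
    unfold Bin SS
    refine sum_congr rfl fun n _ => ?_
    rw [Nat.choose_zero_right, Nat.cast_one, mul_one]
  have h2 : DD 0 P = 1 := by
    unfold DD
    refine prod_eq_one fun q _ => ?_
    simp
  rw [h1, h2, Nat.choose_zero_right, Nat.cast_one, one_mul, one_mul, sub_self, abs_zero]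
  exact mul_nonneg hε.le (SS_nonneg _ _)

theorem choose_ratio {k r : ℕ} (hk : 4 * (r + 1) ≤ k) :
    ((k.choose r : ℕ) : ℝ) ≤ 2 * ((r + 1 : ℕ) : ℝ) / k * ((k.choose (r + 1) : ℕ) : ℝ) := by
  have h1 : k.choose (r + 1) * (r + 1) = k.choose r * (k - r) := Nat.choose_succ_right_eq k r
  have h2 : ((k.choose (r + 1) : ℕ) : ℝ) * ((r + 1 : ℕ) : ℝ) = (k.choose r : ℕ) * ((k : ℝ) - r) := by
    rw [← Nat.cast_sub (by omega)]
    exact_mod_cast h1
  have hk0 : (0 : ℝ) < k := by exact_mod_cast (by omega : 0 < k)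
  have hkr : (k : ℝ) / 2 ≤ (k : ℝ) - r := by
    have : (4 : ℝ) * (r + 1) ≤ k := by exact_mod_cast hk
    have hr : (0 : ℝ) ≤ r := Nat.cast_nonneg r
    linarith
  have h3 : (0 : ℝ) ≤ (k.choose r : ℕ) := Nat.cast_nonneg _
  have h4 := mul_le_mul_of_nonneg_left hkr h3
  rw [div_mul_eq_mul_div, le_div_iff₀ hk0]
  nlinarith

theorem one_le_log {k : ℕ} (hk : 3 ≤ k) : 1 ≤ Real.log k := by
  rw [Real.le_log_iff_exp_le (by positivity)]
  have := Real.exp_one_lt_d9
  have h3 : (3 : ℝ) ≤ k := by exact_mod_cast hk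
  linarith

theorem PP_succ {r : ℕ} (ih : PP r) : PP (r + 1) := by
  intro ε hε
  obtain ⟨C₁, hC₁, H₁⟩ := ih 1 one_pos
  obtain ⟨CM, hCM0, hCM⟩ := mer_local
  set s : ℝ := ((r + 1 : ℕ) : ℝ) with hs
  have hs1 : 1 ≤ s := by
    rw [hs]
    exact_mod_cast (by omega : 1 ≤ r + 1)
  set ε₁ : ℝ := min ε 1 / 8 with hε₁
  have hε₁0 : 0 < ε₁ := by
    have : 0 < min ε 1 := lt_min hε one_pos
    positivity
  have hε₁1 : ε₁ ≤ 1 / 8 := by
    have : min ε 1 ≤ 1 := min_le_right _ _
    linarith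
  have hε₁ε : 8 * ε₁ ≤ ε := by
    have : min ε 1 ≤ ε := min_le_left _ _
    linarith
  set c1 : ℝ := Real.exp (2 * s + CM) with hc1
  have hc10 : 0 < c1 := Real.exp_pos _
  have hl2 : 0 < Real.log 2 := Real.log_pos (by norm_num)
  set C : ℝ := max (max C₁ 1) (max (4 * s / Real.log 2)
    (32 * s ^ 2 * (1 + CM) * c1 / ε₁ ^ 2)) with hC
  have hCa : C₁ ≤ C := (le_max_left _ _).trans (le_max_left _ _)
  have hCb : 1 ≤ C := (le_max_right _ _).trans (le_max_left _ _)
  have hCc : 4 * s / Real.log 2 ≤ C := (le_max_left _ _).trans (le_max_right _ _)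
  have hCd : 32 * s ^ 2 * (1 + CM) * c1 / ε₁ ^ 2 ≤ C := (le_max_right _ _).trans (le_max_right _ _)
  refine ⟨C, by linarith, fun R H P W N V hR hH hok hV => ?_⟩
  set k : ℕ := H.card with hk
  have hlR : Real.log 2 ≤ Real.log R := Real.log_le_log (by norm_num) hR
  have hlR0 : 0 < Real.log R := by linarith
  have hk4 : 4 * s ≤ k := by
    have h1 : 4 * s = 4 * s / Real.log 2 * Real.log 2 := by field_simp
    have h2 : 4 * s / Real.log 2 * Real.log 2 ≤ C * Real.log R :=
      mul_le_mul hCc hlR hl2.le (by linarith)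
    linarith
  have hk4' : 4 * (r + 1) ≤ k := by
    have : (4 : ℝ) * ((r + 1 : ℕ) : ℝ) ≤ k := hk4
    exact_mod_cast this
  have hk3 : 3 ≤ k := by omega
  have hlk := one_le_log hk3
  have hk0 : (0 : ℝ) < k := by exact_mod_cast (by omega : 0 < k)
  have hRk : Real.log R ≤ k := by nlinarith
  have hpk : ∀ p ∈ P, k ≤ p := fun p hp => hok.card_le hp
  have h2p : ∀ p ∈ P, 2 * (r + 1) < p := fun p hp => by
    have := hpk p hp
    omega
  have hD : Dat N (Mc N) (Kc N) P := datc hok.1 fun p hp => ⟨(hok.2 p hp).1, (hok.2 p hp).2.1⟩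
  -- the sum of the reciprocals
  set PR : Finset ℕ := P.filter (fun q : ℕ => (q : ℝ) ≤ R) with hPR
  have hΛ : ∑ q ∈ PR, 1 / (q : ℝ) ≤ (1 + CM) * Real.log k := by
    by_cases hkR : k ≤ ⌊R⌋₊
    · have h1 := hCM k ⌊R⌋₊ hk3 hkR PR fun q hq => by
        rw [hPR, mem_filter] at hq
        exact ⟨(hok.2 q hq.1).1, hpk q hq.1, Nat.le_floor hq.2⟩
      have h2 : Real.log (Real.log ⌊R⌋₊ / Real.log k) ≤ Real.log k := by
        have hz : 1 ≤ Real.log (⌊R⌋₊ : ℕ) := one_le_log (by omega)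
        refine Real.log_le_log (by positivity) ?_
        refine (div_le_self (by linarith) hlk).trans ?_
        refine le_trans (Real.log_le_log ?_ (Nat.floor_le (by linarith))) hRk
        exact_mod_cast (by omega : 0 < ⌊R⌋₊)
      nlinarith
    · have h1 : PR = ∅ := by
        rw [hPR, filter_eq_empty_iff]
        intro q hq hqR
        have h2 := hpk q hq
        have h3 := Nat.le_floor hqR
        omega
      rw [h1, sum_empty]
      positivity
  -- the parameter
  set Λ : ℝ := (1 + CM) * Real.log k with hΛd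
  have hΛ1 : 1 ≤ Λ := by nlinarith
  set η : ℝ := ε₁ / (2 * s * Λ) with hη
  have hη0 : 0 < η := by positivity
  have hη1 : η ≤ 1 := by
    rw [hη, div_le_one (by positivity)]
    nlinarith
  have hηs : 2 * η * s * Λ = ε₁ := by
    rw [hη]
    field_simp
  set E : ℕ → ℝ := fun q => 2 * (k.choose r : ℕ) * (c1 * (Real.log q / Real.log k)) *
    SS N (V - Av (Mc N q) (Kc N q) V) with hE
  have hE0 : ∀ q, 0 ≤ E q := fun q => by
    have h1 := SS_nonneg N (V - Av (Mc N q) (Kc N q) V)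
    have h2 := Real.log_natCast_nonneg q
    simp only [hE]
    positivity
  have hEp : ∀ p ∈ P, (p : ℝ) ≤ R → Bin N H r (V - Av (Mc N p) (Kc N p) V)
      (P.filter (fun q => q < p)) ≤ DD (r + 1) (P.filter (fun q => q < p)) * E p := by
    intro p hp hpR
    set Q := P.filter (fun q => q < p) with hQ
    have hQP : Q ⊆ P := filter_subset _ _
    set S := SS N (V - Av (Mc N p) (Kc N p) V) with hS
    have hS0 : 0 ≤ S := SS_nonneg _ _
    have h1 := (abs_le.1 (H₁ R H Q W N (V - Av (Mc N p) (Kc N p) V) hR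
      (le_trans (mul_le_mul_of_nonneg_right hCa hlR0.le) hH) (hok.sub hQP) (hV.subAv _ _))).2
    have h2 : Bin N H r (V - Av (Mc N p) (Kc N p) V) Q ≤ 2 * ((k.choose r : ℕ) * DD r Q * S) := by
      linarith
    refine h2.trans ?_
    have h3 := DD_ratio (s := r) (Q := Q) fun q hq => h2p q (hQP hq)
    have hkp := hpk p hp
    have h4 := hCM k p hk3 hkp Q fun q hq => by
      rw [hQ, mem_filter] at hq
      exact ⟨(hok.2 q hq.1).1, hpk q hq.1, hq.2.le⟩
    have hlp : 0 < Real.log p := by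
      have := one_le_log (hk3.trans hkp)
      linarith
    have hlk0 : 0 < Real.log k := by linarith
    have h5 : Real.exp (∑ q ∈ Q, 1 / (q : ℝ) + 2 * ((r : ℝ) + 1)) ≤
        c1 * (Real.log p / Real.log k) := by
      have h6 : c1 * (Real.log p / Real.log k) =
          Real.exp (2 * s + CM + Real.log (Real.log p / Real.log k)) := by
        rw [Real.exp_add, Real.exp_log (by positivity)]
      rw [h6, hs]
      push_cast
      refine Real.exp_le_exp.2 ?_
      linarith
    have hDD := DD_pos (s := r + 1) (Q := Q) fun q hq => h2p q (hQP hq)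
    have h6 : DD r Q ≤ DD (r + 1) Q * (c1 * (Real.log p / Real.log k)) :=
      h3.trans (mul_le_mul_of_nonneg_left h5 hDD.le)
    have h7 : 0 ≤ 2 * ((k.choose r : ℕ) : ℝ) * S := by positivity
    have h8 := mul_le_mul_of_nonneg_left h6 h7
    simp only [hE]
    linarith
  have hmain := recur hV.per H r hη0 hη1 R E hE0 P hD h2p (fun p hp => (hok.2 p hp).2.2.2)
    (fun p hp hpR => hV.big (hok.2 p hp).1 (hok.2 p hp).2.2.1 hpR) hEp
  obtain ⟨hlow, hup⟩ := hmain
  rw [Bin_empty] at hlow hup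
  set B : ℝ := ((k.choose (r + 1) : ℕ) : ℝ) * SS N V with hB
  have hSS0 := SS_nonneg N V
  have hB0 : 0 ≤ B := by positivity
  have hDD0 : 0 < DD (r + 1) P := DD_pos h2p
  set D := DD (r + 1) P with hDd
  -- the error
  have herr : 2 * (1 + 1 / η) * ∑ q ∈ PR, E q ≤ ε₁ * B := by
    have h1 : ∑ q ∈ PR, E q ≤ 2 * (k.choose r : ℕ) * c1 / Real.log k * (Real.log R * SS N V) := by
      have hlev := hV.lev hok.1 (fun p hp => ⟨(hok.2 p hp).1, (hok.2 p hp).2.1⟩)
        (fun p hp => (hok.2 p hp).2.2.1)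
      have h2 : ∑ q ∈ PR, E q = 2 * (k.choose r : ℕ) * c1 / Real.log k *
          ∑ q ∈ PR, Real.log q * SS N (V - Av (Mc N q) (Kc N q) V) := by
        rw [mul_sum]
        refine sum_congr rfl fun q _ => ?_
        simp only [hE]
        ring
      rw [h2]
      refine mul_le_mul_of_nonneg_left ?_ (by positivity)
      refine le_trans (sum_le_sum_of_subset_of_nonneg (filter_subset _ _) fun p _ _ => ?_) hlev
      exact mul_nonneg (Real.log_natCast_nonneg p) (SS_nonneg _ _)
    have h2 : 1 + 1 / η ≤ 2 / η := by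
      have : 1 ≤ 1 / η := by rw [le_div_iff₀ hη0]; linarith
      have e : 2 / η = 1 / η + 1 / η := by ring
      linarith
    have h3 : 1 / η = 2 * s * ((1 + CM) * Real.log k) / ε₁ := by
      rw [hη, one_div_div, hΛd]
    have hES0 : 0 ≤ ∑ q ∈ PR, E q := sum_nonneg fun q _ => hE0 q
    have hlk0 : 0 < Real.log k := by linarith
    calc 2 * (1 + 1 / η) * ∑ q ∈ PR, E q
        ≤ 2 * (2 / η) * (2 * (k.choose r : ℕ) * c1 / Real.log k * (Real.log R * SS N V)) := by
          refine mul_le_mul (by linarith) h1 hES0 (by positivity)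
      _ = 4 * (1 / η) * (2 * (k.choose r : ℕ) * c1 / Real.log k * (Real.log R * SS N V)) := by ring
      _ = 16 * s * (1 + CM) * c1 / ε₁ * Real.log R * ((k.choose r : ℕ) * SS N V) := by
          rw [h3]
          field_simp
          ring
      _ ≤ 16 * s * (1 + CM) * c1 / ε₁ * Real.log R *
          (2 * s / k * ((k.choose (r + 1) : ℕ) : ℝ) * SS N V) := by
          refine mul_le_mul_of_nonneg_left ?_ (by positivity)
          exact mul_le_mul_of_nonneg_right (choose_ratio hk4') hSS0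
      _ = (32 * s ^ 2 * (1 + CM) * c1 / ε₁ ^ 2 * Real.log R) / k * (ε₁ * B) := by
          rw [hB]
          field_simp
          ring
      _ ≤ 1 * (ε₁ * B) := by
          refine mul_le_mul_of_nonneg_right ?_ (by positivity)
          rw [div_le_one hk0]
          exact (mul_le_mul_of_nonneg_right hCd hlR0.le).trans hH
      _ = ε₁ * B := one_mul _
  have hA : ∑ q ∈ PR, 2 * η * s / q ≤ ε₁ := by
    have h1 : ∑ q ∈ PR, 2 * η * s / q = 2 * η * s * ∑ q ∈ PR, 1 / (q : ℝ) := by
      rw [mul_sum]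
      exact sum_congr rfl fun q _ => by ring
    rw [h1, ← hηs]
    exact mul_le_mul_of_nonneg_left hΛ (by positivity)
  have hprod : ∏ q ∈ PR, (1 + 2 * η * s / q) ≤ 1 + 2 * ε₁ := by
    have h1 : ∏ q ∈ PR, (1 + 2 * η * s / q) ≤ Real.exp (∑ q ∈ PR, 2 * η * s / q) := by
      rw [Real.exp_sum]
      refine prod_le_prod (fun q _ => by positivity) fun q _ => ?_
      have := Real.add_one_le_exp (2 * η * s / q)
      linarith
    refine h1.trans ((Real.exp_le_exp.2 hA).trans ?_)
    have h2 := Real.exp_bound_div_one_sub_of_interval hε₁0.le (by linarith)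
    refine h2.trans ?_
    rw [div_le_iff₀ (by linarith)]
    nlinarith
  have hgoal : ((k.choose (r + 1) : ℕ) : ℝ) * D * SS N V = D * B := by rw [hB]; ring
  rw [hgoal, abs_le]
  set ESv : ℝ := 2 * (1 + 1 / η) * ∑ q ∈ PR, E q with hESv
  set Av' : ℝ := ∑ q ∈ PR, 2 * η * s / q with hAv'
  set Pv : ℝ := ∏ q ∈ PR, (1 + 2 * η * s / q) with hPv
  have hDB : 0 ≤ D * B := by positivity
  constructor
  · have h1 : (1 - 2 * ε₁) * B ≤ (1 - Av') * B - ESv := by
      have := mul_le_mul_of_nonneg_right hA hB0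
      linarith
    have h2 := mul_le_mul_of_nonneg_left h1 hDD0.le
    have h3 : D * ((1 - 2 * ε₁) * B) = D * B - 2 * ε₁ * (D * B) := by ring
    nlinarith
  · have h1 : Pv * (B + ESv) ≤ (1 + 2 * ε₁) * ((1 + ε₁) * B) := by
      have hESv0 : 0 ≤ ESv := by
        rw [hESv]
        exact mul_nonneg (by positivity) (sum_nonneg fun q _ => hE0 q)
      refine mul_le_mul hprod (by linarith) (by positivity) (by positivity)
    have h2 := mul_le_mul_of_nonneg_left h1 hDD0.le
    have h3 : D * ((1 + 2 * ε₁) * ((1 + ε₁) * B)) = D * B + (3 * ε₁ + 2 * ε₁ ^ 2) * (D * B) := by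
      ring
    have h4 : 3 * ε₁ + 2 * ε₁ ^ 2 ≤ ε := by nlinarith
    have h5 := mul_le_mul_of_nonneg_right h4 hDB
    linarith

/-- the moments of all orders -/
theorem PP_all (r : ℕ) : PP r := by
  induction r with
  | zero => exact PP_zero
  | succ r ih => exact PP_succ ih

end Pool.Agent.Y830.SQ
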