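import Pool.Agent.Y830.SQ.Mom

/-!
The Poisson law and the law of large numbers.
-/

set_option autoImplicit false

namespace Pool.Agent.Y830.SQ

open Finset
open Pool.Agent.Y835.SB

theorem alt (a t : ℕ) : |(if a = 0 then (1 : ℝ) else 0) -
    ∑ i ∈ range t, (-1) ^ i * ((a.choose i : ℕ) : ℝ)| ≤ ((a.choose t : ℕ) : ℝ) := by
  rcases t with _ | t
  · rw [range_zero, sum_empty, sub_zero, Nat.choose_zero_right, Nat.cast_one]
    split_ifs <;> simp
  · rcases a with _ | a
    · have h1 : ∑ i ∈ range (t + 1), (-1 : ℝ) ^ i * (((0 : ℕ).choose i : ℕ) : ℝ) = 1 := by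
        rw [sum_range_succ']
        simp
      rw [if_pos rfl, h1, sub_self, abs_zero]
      exact Nat.cast_nonneg _
    · have h1 := Int.alternating_sum_range_choose_eq_choose (n := a) (m := t)
      have h2 : ∑ i ∈ range (t + 1), (-1 : ℝ) ^ i * (((a + 1).choose i : ℕ) : ℝ) =
          (-1) ^ t * ((a.choose t : ℕ) : ℝ) := by exact_mod_cast h1
      rw [if_neg (Nat.succ_ne_zero a), h2, zero_sub, abs_neg, abs_mul, abs_pow, abs_neg, abs_one,
        one_pow, one_mul, Nat.abs_cast, Nat.choose_succ_succ]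
      push_cast
      have : (0 : ℝ) ≤ ((a.choose (t + 1) : ℕ) : ℝ) := Nat.cast_nonneg _
      linarith

/-- the inequalities of Bonferroni for exactly `j` -/
theorem bonf (S j t : ℕ) : |(if S = j then (1 : ℝ) else 0) -
    ∑ i ∈ range t, (-1) ^ i * (((j + i).choose j : ℕ) : ℝ) * ((S.choose (j + i) : ℕ) : ℝ)| ≤
    (((j + t).choose j : ℕ) : ℝ) * ((S.choose (j + t) : ℕ) : ℝ) := by
  rcases lt_or_ge S j with h | h
  · have h1 : ∀ i, S.choose (j + i) = 0 := fun i => Nat.choose_eq_zero_of_lt (by omega)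
    rw [if_neg (by omega)]
    simp [h1]
  · obtain ⟨a, rfl⟩ := Nat.exists_eq_add_of_le h
    have h1 : ∀ i, (((j + i).choose j : ℕ) : ℝ) * (((j + a).choose (j + i) : ℕ) : ℝ) =
        (((j + a).choose j : ℕ) : ℝ) * ((a.choose i : ℕ) : ℝ) := by
      intro i
      have h2 := Nat.choose_mul (n := j + a) (k := j + i) (s := j) (by omega)
      rw [Nat.add_sub_cancel_left, Nat.add_sub_cancel_left] at h2
      rw [mul_comm]
      exact_mod_cast h2
    have h2 : (if j + a = j then (1 : ℝ) else 0) =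
        (((j + a).choose j : ℕ) : ℝ) * (if a = 0 then (1 : ℝ) else 0) := by
      rcases Nat.eq_zero_or_pos a with h3 | h3
      · rw [h3]; simp
      · rw [if_neg (by omega), if_neg (by omega), mul_zero]
    have h3 : ∑ i ∈ range t, (-1 : ℝ) ^ i * (((j + i).choose j : ℕ) : ℝ) *
        (((j + a).choose (j + i) : ℕ) : ℝ) =
        (((j + a).choose j : ℕ) : ℝ) * ∑ i ∈ range t, (-1) ^ i * ((a.choose i : ℕ) : ℝ) := by
      rw [mul_sum]
      refine sum_congr rfl fun i _ => ?_
      rw [mul_assoc, h1 i]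
      ring
    rw [h1 t, h2, h3, ← mul_sub, abs_mul, Nat.abs_cast]
    exact mul_le_mul_of_nonneg_left (alt a t) (Nat.cast_nonneg _)

/-- the mass of the integers with exactly `j` surviving sites -/
noncomputable def mass (N : ℕ) (H P : Finset ℕ) (V : ℕ → ℝ) (j : ℕ) : ℝ :=
  ∑ n ∈ range N, V n ^ 2 * (if (SV H P n).card = j then 1 else 0)

theorem mass_bonf (N : ℕ) (H P : Finset ℕ) (V : ℕ → ℝ) (j t : ℕ) :
    |mass N H P V j - ∑ i ∈ range t, (-1) ^ i * (((j + i).choose j : ℕ) : ℝ) *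
      Bin N H (j + i) V P| ≤ (((j + t).choose j : ℕ) : ℝ) * Bin N H (j + t) V P := by
  have h1 : ∑ i ∈ range t, (-1) ^ i * (((j + i).choose j : ℕ) : ℝ) * Bin N H (j + i) V P =
      ∑ n ∈ range N, V n ^ 2 * ∑ i ∈ range t, (-1) ^ i * (((j + i).choose j : ℕ) : ℝ) *
        (((SV H P n).card.choose (j + i) : ℕ) : ℝ) := by
    unfold Bin
    simp only [mul_sum]
    rw [sum_comm]
    exact sum_congr rfl fun n _ => sum_congr rfl fun i _ => by ring
  have h2 : (((j + t).choose j : ℕ) : ℝ) * Bin N H (j + t) V P =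
      ∑ n ∈ range N, V n ^ 2 * ((((j + t).choose j : ℕ) : ℝ) *
        (((SV H P n).card.choose (j + t) : ℕ) : ℝ)) := by
    unfold Bin
    rw [mul_sum]
    exact sum_congr rfl fun n _ => by ring
  rw [h1, h2]
  unfold mass
  rw [← sum_sub_distrib]
  refine (abs_sum_le_sum_abs _ _).trans (sum_le_sum fun n _ => ?_)
  rw [← mul_sub, abs_mul, abs_of_nonneg (sq_nonneg (V n))]
  exact mul_le_mul_of_nonneg_left (bonf _ j t) (sq_nonneg _)

theorem exp_tail {x M : ℝ} (hx0 : 0 ≤ x) (hxM : x ≤ M) {t : ℕ} (ht : 2 * M ≤ t) :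
    |Real.exp (-x) - ∑ i ∈ range t, (-x) ^ i / (i.factorial : ℕ)| ≤
      2 * (M ^ t / (t.factorial : ℕ)) ∧
    Real.exp x - ∑ i ∈ range t, x ^ i / (i.factorial : ℕ) ≤ 2 * (M ^ t / (t.factorial : ℕ)) := by
  have hf : (0 : ℝ) < (t.factorial : ℕ) := by exact_mod_cast t.factorial_pos
  have key : ∀ y : ℝ, |y| ≤ M → |Real.exp y - ∑ i ∈ range t, y ^ i / (i.factorial : ℕ)| ≤
      2 * (M ^ t / (t.factorial : ℕ)) := by
    intro y hy
    have h1 : ‖(y : ℂ)‖ / t.succ ≤ 1 / 2 := by
      rw [Complex.norm_real, Real.norm_eq_abs, div_le_div_iff₀ (by positivity) two_pos]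
      push_cast
      linarith
    have h2 := Complex.exp_bound' h1
    have h3 : Complex.exp (y : ℂ) - ∑ m ∈ range t, (y : ℂ) ^ m / (m.factorial : ℕ) =
        ((Real.exp y - ∑ i ∈ range t, y ^ i / (i.factorial : ℕ) : ℝ) : ℂ) := by
      push_cast
      rfl
    rw [h3, Complex.norm_real, Complex.norm_real, Real.norm_eq_abs, Real.norm_eq_abs] at h2
    refine h2.trans ?_
    rw [mul_comm]
    refine mul_le_mul_of_nonneg_left ?_ two_pos.le
    exact div_le_div_of_nonneg_right (pow_le_pow_left₀ (abs_nonneg _) hy t) hf.le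
  constructor
  · exact key (-x) (by rw [abs_neg, abs_of_nonneg hx0]; exact hxM)
  · exact (le_abs_self _).trans (key x (by rw [abs_of_nonneg hx0]; exact hxM))

theorem choose_fac (j i : ℕ) (x : ℝ) : (((j + i).choose j : ℕ) : ℝ) *
    (x ^ (j + i) / ((j + i).factorial : ℕ)) = x ^ j / (j.factorial : ℕ) * (x ^ i / (i.factorial : ℕ)) := by
  have h1 : (j + i).choose j * j.factorial * i.factorial = (j + i).factorial := by
    have h0 := Nat.add_choose_mul_factorial_mul_factorial i j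
    rw [add_comm i j] at h0
    rw [← h0]
    ring
  have h2 : (((j + i).choose j : ℕ) : ℝ) * (j.factorial : ℕ) * (i.factorial : ℕ) =
      ((j + i).factorial : ℕ) := by exact_mod_cast h1
  have hj : (0 : ℝ) < (j.factorial : ℕ) := by exact_mod_cast j.factorial_pos
  have hi : (0 : ℝ) < (i.factorial : ℕ) := by exact_mod_cast i.factorial_pos
  have hij : (0 : ℝ) < ((j + i).factorial : ℕ) := by exact_mod_cast (j + i).factorial_pos
  rw [← h2]
  have hc : (0 : ℝ) < ((j + i).choose j : ℕ) := by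
    exact_mod_cast Nat.choose_pos (by omega)
  field_simp
  ring

/-- finitely many moments at once -/
theorem moments_upto (n : ℕ) (ε : ℝ) (hε : 0 < ε) : ∃ C : ℝ, 0 < C ∧
    ∀ (R : ℝ) (H P : Finset ℕ) (W N : ℕ) (V : ℕ → ℝ), 2 ≤ R → C * Real.log R ≤ H.card →
      Ok H P W N → IsWeight W N R V → ∀ r ≤ n,
      |Bin N H r V P - mu H P ^ r / (r.factorial : ℕ) * SS N V| ≤
        ε * (mu H P ^ r / (r.factorial : ℕ) * SS N V) := by
  induction n with
  | zero =>
    obtain ⟨C, hC, h⟩ := moments 0 ε hε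
    refine ⟨C, hC, fun R H P W N V h1 h2 h3 h4 r hr => ?_⟩
    obtain rfl : r = 0 := by omega
    exact h R H P W N V h1 h2 h3 h4
  | succ n ih =>
    obtain ⟨C, hC, h⟩ := moments (n + 1) ε hε
    obtain ⟨C', hC', h'⟩ := ih
    refine ⟨max C C', lt_of_lt_of_le hC (le_max_left _ _), fun R H P W N V h1 h2 h3 h4 r hr => ?_⟩
    have hlR : 0 ≤ Real.log R := Real.log_nonneg (by linarith)
    rcases Nat.lt_or_ge n r with h5 | h5
    · obtain rfl : r = n + 1 := by omega
      exact h R H P W N V h1 ((mul_le_mul_of_nonneg_right (le_max_left _ _) hlR).trans h2) h3 h4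
    · exact h' R H P W N V h1 ((mul_le_mul_of_nonneg_right (le_max_right _ _) hlR).trans h2) h3 h4 r h5

theorem mu_nonneg {H P : Finset ℕ} {W N : ℕ} (h : Ok H P W N) : 0 ≤ mu H P := by
  unfold mu
  refine mul_nonneg (Nat.cast_nonneg _) (prod_nonneg fun p hp => ?_)
  have h1 : (1 : ℝ) ≤ p := by exact_mod_cast (h.2 p hp).1.one_lt.le
  rw [sub_nonneg, div_le_one (by linarith)]
  exact h1

/-- the Poisson law for a fixed number of surviving sites -/
theorem law_pt (M : ℝ) (hM : 0 < M) (j : ℕ) (ε : ℝ) (hε : 0 < ε) : ∃ C : ℝ, 0 < C ∧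
    ∀ (R : ℝ) (H P : Finset ℕ) (W N : ℕ) (V : ℕ → ℝ), 2 ≤ R → C * Real.log R ≤ H.card →
      Ok H P W N → IsWeight W N R V → mu H P ≤ M →
      |mass N H P V j - Real.exp (-mu H P) * mu H P ^ j / (j.factorial : ℕ) * SS N V| ≤
        ε * SS N V := by
  have hjf : (0 : ℝ) < (j.factorial : ℕ) := by exact_mod_cast j.factorial_pos
  set A : ℝ := M ^ j / (j.factorial : ℕ) with hA
  have hA0 : 0 < A := by positivity
  -- the number of terms
  obtain ⟨t, ht1, ht2⟩ : ∃ t : ℕ, 2 * M ≤ t ∧ A * (4 * (M ^ t / (t.factorial : ℕ))) ≤ ε / 2 := by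
    have h1 := FloorSemiring.tendsto_pow_div_factorial_atTop M
    have h2 : ∀ᶠ t : ℕ in Filter.atTop, M ^ t / (t.factorial : ℕ) < ε / (8 * A) :=
      h1.eventually_lt_const (by positivity)
    have h3 : ∀ᶠ t : ℕ in Filter.atTop, 2 * M ≤ t :=
      tendsto_natCast_atTop_atTop.eventually_ge_atTop _
    obtain ⟨t, h4, h5⟩ := (h2.and h3).exists
    refine ⟨t, h5, ?_⟩
    rw [lt_div_iff₀ (by positivity)] at h4
    nlinarith
  set ε' : ℝ := min 1 (ε / (2 * A * Real.exp M)) with hε'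
  have hε'0 : 0 < ε' := lt_min one_pos (by positivity)
  have hε'1 : ε' ≤ 1 := min_le_left _ _
  have hε'2 : A * (ε' * Real.exp M) ≤ ε / 2 := by
    have h1 : ε' ≤ ε / (2 * A * Real.exp M) := min_le_right _ _
    have h2 := Real.exp_pos M
    rw [le_div_iff₀ (by positivity)] at h1
    nlinarith
  obtain ⟨C, hC, HC⟩ := moments_upto (j + t) ε' hε'0
  refine ⟨C, hC, fun R H P W N V hR hH hok hV hμM => ?_⟩
  have hmom := HC R H P W N V hR hH hok hV
  have hμ0 := mu_nonneg hok
  set μ : ℝ := mu H P with hμ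
  have hSS := SS_nonneg N V
  set S := SS N V with hS
  have hb := mass_bonf N H P V j t
  set B : ℝ := μ ^ j / (j.factorial : ℕ) with hB
  have hB0 : 0 ≤ B := by positivity
  have hBA : B ≤ A := div_le_div_of_nonneg_right (pow_le_pow_left₀ hμ0 hμM j) hjf.le
  have htf : (0 : ℝ) < (t.factorial : ℕ) := by exact_mod_cast t.factorial_pos
  set X : ℝ := M ^ t / (t.factorial : ℕ) with hX
  have hX0 : 0 ≤ X := by positivity
  -- the main sum
  have hsum : |∑ i ∈ range t, (-1) ^ i * (((j + i).choose j : ℕ) : ℝ) * Bin N H (j + i) V P -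
      B * (∑ i ∈ range t, (-μ) ^ i / (i.factorial : ℕ)) * S| ≤ ε' * (B * Real.exp M * S) := by
    have h1 : B * (∑ i ∈ range t, (-μ) ^ i / (i.factorial : ℕ)) * S =
        ∑ i ∈ range t, (-1) ^ i * (((j + i).choose j : ℕ) : ℝ) *
          (μ ^ (j + i) / ((j + i).factorial : ℕ) * S) := by
      rw [mul_sum, sum_mul]
      refine sum_congr rfl fun i _ => ?_
      have h2 := choose_fac j i μ
      have h3 : (-μ) ^ i = (-1) ^ i * μ ^ i := by rw [neg_pow]
      rw [h3]
      calc B * ((-1) ^ i * μ ^ i / (i.factorial : ℕ)) * S =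
          (-1) ^ i * (μ ^ j / (j.factorial : ℕ) * (μ ^ i / (i.factorial : ℕ))) * S := by
            rw [hB]; ring
        _ = _ := by rw [← h2]; ring
    rw [h1, ← sum_sub_distrib]
    refine (abs_sum_le_sum_abs _ _).trans ?_
    have h2 : ∀ i ∈ range t, |(-1) ^ i * (((j + i).choose j : ℕ) : ℝ) * Bin N H (j + i) V P -
        (-1) ^ i * (((j + i).choose j : ℕ) : ℝ) * (μ ^ (j + i) / ((j + i).factorial : ℕ) * S)| ≤
        ε' * (B * (μ ^ i / (i.factorial : ℕ)) * S) := by
      intro i hi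
      rw [mem_range] at hi
      rw [← mul_sub, abs_mul, abs_mul, abs_pow, abs_neg, abs_one, one_pow, one_mul, Nat.abs_cast]
      have h3 := mul_le_mul_of_nonneg_left (hmom (j + i) (by omega))
        (Nat.cast_nonneg (α := ℝ) ((j + i).choose j))
      refine h3.trans (le_of_eq ?_)
      have h4 := choose_fac j i μ
      calc _ = ε' * ((((j + i).choose j : ℕ) : ℝ) * (μ ^ (j + i) / ((j + i).factorial : ℕ)) * S) := by
            ring
        _ = _ := by rw [h4]
    refine (sum_le_sum h2).trans ?_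
    rw [← mul_sum, ← sum_mul, ← mul_sum]
    refine mul_le_mul_of_nonneg_left ?_ hε'0.le
    refine mul_le_mul_of_nonneg_right ?_ hSS
    refine mul_le_mul_of_nonneg_left ?_ hB0
    exact (Real.sum_le_exp_of_nonneg hμ0 t).trans (Real.exp_le_exp.2 hμM)
  have hrem : (((j + t).choose j : ℕ) : ℝ) * Bin N H (j + t) V P ≤ 2 * (B * X * S) := by
    have h1 := (abs_le.1 (hmom (j + t) le_rfl)).2
    have hT0 : 0 ≤ μ ^ (j + t) / ((j + t).factorial : ℕ) * S := by positivity
    have h2 : Bin N H (j + t) V P ≤ 2 * (μ ^ (j + t) / ((j + t).factorial : ℕ) * S) := by nlinarith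
    have h3 := mul_le_mul_of_nonneg_left h2 (Nat.cast_nonneg (α := ℝ) ((j + t).choose j))
    refine h3.trans ?_
    have h4 := choose_fac j t μ
    calc _ = 2 * ((((j + t).choose j : ℕ) : ℝ) * (μ ^ (j + t) / ((j + t).factorial : ℕ)) * S) := by
          ring
      _ = 2 * (B * (μ ^ t / (t.factorial : ℕ)) * S) := by rw [h4]
      _ ≤ _ := by
          refine mul_le_mul_of_nonneg_left ?_ two_pos.le
          refine mul_le_mul_of_nonneg_right ?_ hSS
          refine mul_le_mul_of_nonneg_left ?_ hB0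
          exact div_le_div_of_nonneg_right (pow_le_pow_left₀ hμ0 hμM t) htf.le
  have htail := (exp_tail hμ0 hμM ht1).1
  have htail' : |B * (∑ i ∈ range t, (-μ) ^ i / (i.factorial : ℕ)) * S -
      Real.exp (-μ) * μ ^ j / (j.factorial : ℕ) * S| ≤ 2 * (B * X * S) := by
    have h1 : B * (∑ i ∈ range t, (-μ) ^ i / (i.factorial : ℕ)) * S -
        Real.exp (-μ) * μ ^ j / (j.factorial : ℕ) * S =
        -(B * S * (Real.exp (-μ) - ∑ i ∈ range t, (-μ) ^ i / (i.factorial : ℕ))) := by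
      rw [hB]; ring
    rw [h1, abs_neg, abs_mul, abs_of_nonneg (mul_nonneg hB0 hSS)]
    have h2 := mul_le_mul_of_nonneg_left htail (mul_nonneg hB0 hSS)
    linarith
  have hfin : |mass N H P V j - Real.exp (-μ) * μ ^ j / (j.factorial : ℕ) * S| ≤
      B * (ε' * Real.exp M + 4 * X) * S := by
    have h1 := abs_sub_le (mass N H P V j)
      (∑ i ∈ range t, (-1) ^ i * (((j + i).choose j : ℕ) : ℝ) * Bin N H (j + i) V P)
      (B * (∑ i ∈ range t, (-μ) ^ i / (i.factorial : ℕ)) * S)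
    have h2 := abs_sub_le (mass N H P V j) (B * (∑ i ∈ range t, (-μ) ^ i / (i.factorial : ℕ)) * S)
      (Real.exp (-μ) * μ ^ j / (j.factorial : ℕ) * S)
    have h3 : B * (ε' * Real.exp M + 4 * X) * S = ε' * (B * Real.exp M * S) + 2 * (B * X * S) +
        2 * (B * X * S) := by ring
    rw [h3]
    linarith
  refine hfin.trans (mul_le_mul_of_nonneg_right ?_ hSS)
  have h1 : B * (ε' * Real.exp M + 4 * X) ≤ A * (ε' * Real.exp M + 4 * X) :=
    mul_le_mul_of_nonneg_right hBA (by positivity)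
  linarith

end Pool.Agent.Y830.SQ
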