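import Pool.Agent.Y830.SQ.Law

/-!
Windows in which no integer survives: almost none of the mass of the square of a function of
level `R` lies on the windows with many integers free of small prime factors.
-/

set_option autoImplicit false

namespace Pool.Agent.Y830.SQ

open Finset
open Pool.Agent.Y835.SB

open Classical in
/-- the integers of the window `(n, n + Y]` without prime factors up to `Y` -/
noncomputable def rough (Y n : ℕ) : Finset ℕ :=
  (Icc 1 Y).filter (fun k => ∀ p : ℕ, p.Prime → p ≤ Y → ¬ p ∣ n + k)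

/-- the windows -/
def Dead (Y : ℕ) (P : Finset ℕ) (n : ℕ) : Prop := ∀ k ∈ rough Y n, ∃ p ∈ P, p ∣ n + k

theorem rough_mod {Y W : ℕ} (hW : ∀ p : ℕ, p.Prime → p ≤ Y → p ∣ W) (n : ℕ) :
    rough Y n = rough Y (n % W) := by
  classical
  unfold rough
  refine filter_congr fun k _ => ?_
  refine forall_congr' fun p => forall_congr' fun hp => forall_congr' fun hpY => not_congr ?_
  have h1 := hW p hp hpY
  have h2 : n + k = n % W + k + W * (n / W) := by
    have := Nat.mod_add_div n W
    omega
  rw [h2]
  exact (Nat.dvd_add_iff_left (h1.mul_right _)).symm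

theorem IsWeight.cls {W N : ℕ} {R : ℝ} {V : ℕ → ℝ} (h : IsWeight W N R V) (a : ℕ) :
    IsWeight W N R (fun n => if n % W = a then V n else 0) := by
  obtain ⟨I, d, f, h1, h2⟩ := h
  refine ⟨I, d, fun i n => if n % W = a then f i n else 0, fun i hi => ?_, fun n => ?_⟩
  · obtain ⟨h3, h4, h5, h6⟩ := h1 i hi
    refine ⟨h3, h4, h5, fun n => ?_⟩
    show (if (n + W * d i) % W = a then f i (n + W * d i) else 0) = if n % W = a then f i n else 0
    rw [h6 n, Nat.add_mul_mod_self_left]
  · show (if n % W = a then V n else 0) = ∑ i ∈ I, if n % W = a then f i n else 0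
    split_ifs
    · exact h2 n
    · rw [sum_const_zero]

open Classical in
/-- **Almost no mass on dead windows with many rough integers.** -/
theorem windows (ε : ℝ) (hε : 0 < ε) : ∃ C : ℝ, 0 < C ∧
    ∀ (R : ℝ) (Y : ℕ) (P : Finset ℕ) (W N : ℕ) (V : ℕ → ℝ), 2 ≤ R → 0 < W → 0 < N →
      (∀ p : ℕ, p.Prime → p ≤ Y → p ∣ W) → (∀ p ∈ P, p.Prime ∧ Y < p ∧ ¬ p ∣ W ∧ p ∣ N) →
      C ≤ Real.log R * ∏ p ∈ P, (1 - 1 / (p : ℝ)) → IsWeight W N R V →
      ∑ n ∈ range N, V n ^ 2 *
        (if C * Real.log R ≤ (rough Y n).card ∧ Dead Y P n then 1 else 0) ≤ ε * SS N V := by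
  obtain ⟨C, hC, HC⟩ := lln (1 / 2) ε (by norm_num) hε
  refine ⟨max C 1, lt_of_lt_of_le hC (le_max_left _ _),
    fun R Y P W N V hR hW0 hN0 hW hP hPR hV => ?_⟩
  have hlR : 0 ≤ Real.log R := Real.log_nonneg (by linarith)
  -- split according to the class modulo `W`
  have hsplit : ∀ F : ℕ → ℝ, ∑ n ∈ range N, F n =
      ∑ a ∈ range W, ∑ n ∈ range N, if n % W = a then F n else 0 := by
    intro F
    rw [sum_comm]
    refine sum_congr rfl fun n _ => ?_
    rw [sum_ite_eq, if_pos (mem_range.2 (Nat.mod_lt n hW0))]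
  rw [hsplit]
  have hSS : SS N V = ∑ a ∈ range W, SS N (fun n => if n % W = a then V n else 0) := by
    unfold SS
    rw [hsplit]
    refine sum_congr rfl fun a _ => sum_congr rfl fun n _ => ?_
    show (if n % W = a then V n ^ 2 else 0) = (if n % W = a then V n else 0) ^ 2
    by_cases h : n % W = a
    · rw [if_pos h, if_pos h]
    · rw [if_neg h, if_neg h]
      norm_num
  rw [hSS, mul_sum]
  refine sum_le_sum fun a _ => ?_
  set Va : ℕ → ℝ := fun n => if n % W = a then V n else 0 with hVa
  have hSSa := SS_nonneg N Va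
  by_cases hbig : max C 1 * Real.log R ≤ (rough Y a).card
  · have hok : Ok (rough Y a) P W N := by
      refine ⟨hN0, fun p hp => ?_⟩
      obtain ⟨h1, h2, h3, h4⟩ := hP p hp
      refine ⟨h1, h4, h3, fun k hk l hl hkl => ?_⟩
      have hk' := mem_Icc.1 (mem_filter.1 (mem_coe.1 hk)).1
      have hl' := mem_Icc.1 (mem_filter.1 (mem_coe.1 hl)).1
      have h5 : k % p = l % p := hkl
      rwa [Nat.mod_eq_of_lt (by omega), Nat.mod_eq_of_lt (by omega)] at h5
    have hC1 : C * Real.log R ≤ (rough Y a).card :=
      (mul_le_mul_of_nonneg_right (le_max_left _ _) hlR).trans hbig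
    have hpr0 : 0 ≤ ∏ p ∈ P, (1 - 1 / (p : ℝ)) := by
      refine prod_nonneg fun p hp => ?_
      have h1 : (1 : ℝ) ≤ p := by exact_mod_cast (hP p hp).1.one_lt.le
      rw [sub_nonneg, div_le_one (by linarith)]
      exact h1
    have hmu : C ≤ mu (rough Y a) P := by
      unfold mu
      have h1 : 1 * Real.log R ≤ (rough Y a).card :=
        (mul_le_mul_of_nonneg_right (le_max_right _ _) hlR).trans hbig
      rw [one_mul] at h1
      have h2 := mul_le_mul_of_nonneg_right h1 hpr0
      exact (le_max_left _ _).trans (hPR.trans h2)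
    have hmu0 : 0 < mu (rough Y a) P := by linarith
    have h1 := HC R (rough Y a) P W N Va hR hC1 hok (hV.cls a) hmu
    refine le_trans (sum_le_sum fun n _ => ?_) h1
    by_cases hna : n % W = a
    · simp only [hVa, if_pos hna]
      refine mul_le_mul_of_nonneg_left ?_ (sq_nonneg _)
      split_ifs with h2 h3 h3
      · exact le_rfl
      · exfalso
        apply h3
        have h4 : SV (rough Y a) P n = ∅ := by
          unfold SV
          rw [filter_eq_empty_iff]
          intro k hk hk2
          have h5 : k ∈ rough Y n := by rw [rough_mod hW n, hna]; exact hk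
          obtain ⟨p, hp, hpd⟩ := h2.2 k h5
          exact hk2 p hp hpd
        rw [h4, card_empty, Nat.cast_zero, zero_sub, abs_neg, abs_of_pos hmu0]
        linarith
      · norm_num
      · exact le_rfl
    · simp only [hVa, if_neg hna]
      norm_num
  · have h1 : ∑ n ∈ range N, (if n % W = a then V n ^ 2 *
        (if max C 1 * Real.log R ≤ (rough Y n).card ∧ Dead Y P n then 1 else 0) else 0) = 0 := by
      refine sum_eq_zero fun n _ => ?_
      split_ifs with h2 h3
      · exfalso
        apply hbig
        rw [← h2, ← rough_mod hW n]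
        exact h3.1
      · exact mul_zero _
      · rfl
    rw [h1]
    exact mul_nonneg hε.le hSSa

end Pool.Agent.Y830.SQ
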