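import Pool.Agent.Y830.SQ.Cap1

/-!
Exact counts, and the weight as a function of level `R`.
-/

set_option autoImplicit false
set_option linter.unusedSectionVars false

namespace Pool.Agent.Y830.SQ

open Finset
open Pool.Agent.H256R2.SC

/-- exact counts -/
theorem cnt_exact {q m : ℕ} (hq : 0 < q) (r : ℤ)
    (inst : DecidablePred (fun a : ℕ => (q : ℤ) ∣ (a : ℤ) - r)) :
    ((range (q * m)).filter (fun a : ℕ => (q : ℤ) ∣ (a : ℤ) - r)).card = m := by
  set v : ℕ := (r % q).toNat with hv
  have hq' : (q : ℤ) ≠ 0 := by exact_mod_cast hq.ne'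
  have hvr : (v : ℤ) = r % q := Int.toNat_of_nonneg (Int.emod_nonneg r hq')
  have h1 : (range (q * m)).filter (fun a : ℕ => (q : ℤ) ∣ (a : ℤ) - r) =
      (Ico 0 (q * m)).filter (fun a => a ≡ v [MOD q]) := by
    rw [range_eq_Ico]
    refine filter_congr fun a _ => ?_
    rw [← Int.natCast_modEq_iff, hvr, ← Int.modEq_iff_dvd]
    constructor
    · intro h
      exact h.symm.trans (Int.mod_modEq r q).symm
    · intro h
      exact (h.trans (Int.mod_modEq r q)).symm
  rw [h1]
  have h2 := Nat.Ico_filter_modEq_card (a := 0) (b := q * m) hq v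
  have hq0 : (q : ℚ) ≠ 0 := by exact_mod_cast hq.ne'
  have h3 : ((q * m : ℕ) - (v : ℚ)) / q = (0 - (v : ℚ)) / q + (m : ℤ) := by
    push_cast
    field_simp
    ring
  have h4 : (((Ico 0 (q * m)).filter (fun a => a ≡ v [MOD q])).card : ℤ) = m := by
    rw [h2]
    push_cast at h3 ⊢
    rw [h3, ← Int.cast_natCast (R := ℚ) m, Int.ceil_add_intCast, add_sub_cancel_left]
    exact max_eq_left (Nat.cast_nonneg m)
  exact_mod_cast h4

variable {κ : Type} [Fintype κ] [DecidableEq κ]

theorem qn_dvd {PP : Finset ℕ} (hP : ∀ p ∈ PP, p.Prime) {N : ℕ} (hN : ∀ p ∈ PP, p ∣ N)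
    (D : Col PP.card κ) : qn PP D ∣ N := by
  unfold qn
  refine Finset.prod_dvd_of_isRelPrime ?_ fun i _ => hN _ (emb_mem PP i)
  intro i _ j _ hij
  exact Nat.coprime_iff_isRelPrime.mp (emb_coprime hP hij)

theorem qn_pos {PP : Finset ℕ} (hP : ∀ p ∈ PP, p.Prime) (D : Col PP.card κ) : 0 < qn PP D := by
  unfold qn
  exact prod_pos fun i _ => (hP _ (emb_mem PP i)).pos

theorem weight_of {PP : Finset ℕ} (hP : ∀ p ∈ PP, p.Prime) {N : ℕ} (hN : ∀ p ∈ PP, p ∣ N)
    {res : ℕ → κ → ℤ} (hinj : ∀ p ∈ PP, ∀ k l : κ, k ≠ l → ¬ ((p : ℤ) ∣ res p k - res p l))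
    {Q B X : ℝ} (hQX : Q ≤ X) (hX : 1 ≤ X) {V : Col PP.card κ → ℝ}
    (hV : Lv (fun i => ((emb PP i : ℕ) : ℝ)) Q B V) :
    IsWeight 1 N X (fun a => V (colr PP res (a : ℤ))) := by
  classical
  obtain ⟨f, h1, _, h3⟩ := hV
  set e := Fintype.equivFin (Col PP.card κ) with he
  set m := Fintype.card (Col PP.card κ) with hm
  set dec : ℕ → Option (Col PP.card κ) := fun i => if hi : i < m then some (e.symm ⟨i, hi⟩) else none
    with hdec
  refine ⟨range m, fun i => match dec i with
    | none => 1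
    | some D => if f D = 0 then 1 else qn PP D,
    fun i n => match dec i with
    | none => 0
    | some D => f D * ind D (colr PP res (n : ℤ)), fun i hi => ?_, fun n => ?_⟩
  · have hi' : dec i = some (e.symm ⟨i, mem_range.1 hi⟩) := by
      rw [hdec]
      simp only [dif_pos (mem_range.1 hi)]
    simp only [hi']
    set D := e.symm ⟨i, mem_range.1 hi⟩ with hD
    by_cases hf : f D = 0
    · rw [if_pos hf, hf]
      refine ⟨one_pos, by exact_mod_cast hX, by simp, fun n => ?_⟩
      simp
    · rw [if_neg hf]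
      refine ⟨qn_pos hP D, ?_, ?_, fun n => ?_⟩
      · rw [qn_cast]
        exact (h3 D hf).trans hQX
      · rw [one_mul]
        exact qn_dvd hP hN D
      · have h4 : ind D (colr PP res ((n + 1 * qn PP D : ℕ) : ℤ)) = ind D (colr PP res (n : ℤ)) := by
          unfold ind
          obtain ⟨r, hr⟩ := event_iff hP hinj D
          refine if_congr ?_ rfl rfl
          rw [hr, hr, one_mul]
          push_cast
          have e1 : (n : ℤ) + (qn PP D : ℕ) - r = (n - r) + (qn PP D : ℕ) := by ring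
          rw [e1]
          exact dvd_add_left (dvd_refl _)
        show f D * ind D (colr PP res ((n + 1 * qn PP D : ℕ) : ℤ)) =
          f D * ind D (colr PP res (n : ℤ))
        rw [h4]
  · show V (colr PP res (n : ℤ)) = _
    rw [h1]
    have h4 : ∀ i ∈ range m, (match dec i with
        | none => (0 : ℝ)
        | some D => f D * ind D (colr PP res (n : ℤ))) =
        if hi : i < m then f (e.symm ⟨i, hi⟩) * ind (e.symm ⟨i, hi⟩) (colr PP res (n : ℤ)) else 0 := by
      intro i hi
      have hi' : dec i = some (e.symm ⟨i, mem_range.1 hi⟩) := by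
        rw [hdec]
        simp only [dif_pos (mem_range.1 hi)]
      rw [hi', dif_pos (mem_range.1 hi)]
    rw [sum_congr rfl h4, ← Fin.sum_univ_eq_sum_range (fun i => if hi : i < m then
      f (e.symm ⟨i, hi⟩) * ind (e.symm ⟨i, hi⟩) (colr PP res (n : ℤ)) else 0) m]
    rw [← Equiv.sum_comp e.symm]
    refine sum_congr rfl fun i _ => ?_
    rw [dif_pos i.2]

end Pool.Agent.Y830.SQ
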