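import Pool.Agent.Y830.SQ.Recur
import Pool.Agent.Y835.SB.Fin

/-!
Functions of level `R` and the level inequality.
-/

set_option autoImplicit false

namespace Pool.Agent.Y830.SQ

open Finset
open Pool.Agent.Y835.SB

/-- `V` is a sum of functions that are periodic modulo `W d` for some `d ≤ R`; `N` is a common
period -/
def IsWeight (W N : ℕ) (R : ℝ) (V : ℕ → ℝ) : Prop :=
  ∃ (I : Finset ℕ) (d : ℕ → ℕ) (f : ℕ → ℕ → ℝ),
    (∀ i ∈ I, 0 < d i ∧ (d i : ℝ) ≤ R ∧ W * d i ∣ N ∧ Function.Periodic (f i) (W * d i)) ∧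
    ∀ n, V n = ∑ i ∈ I, f i n

/-- the coordinate modulus -/
def Mc (N p : ℕ) : ℕ := N / p ^ N.factorization p

/-- the size of the coordinate -/
def Kc (N p : ℕ) : ℕ := p ^ N.factorization p

theorem datc {N : ℕ} (hN : 0 < N) {Q : Finset ℕ} (hQ : ∀ p ∈ Q, p.Prime ∧ p ∣ N) :
    Dat N (Mc N) (Kc N) Q := dat_of hN hQ

theorem IsWeight.per {W N : ℕ} {R : ℝ} {V : ℕ → ℝ} (h : IsWeight W N R V) :
    Function.Periodic V N := by
  obtain ⟨I, d, f, h1, h2⟩ := h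
  intro n
  rw [h2, h2]
  exact sum_congr rfl fun i hi => per_of_dvd (h1 i hi).2.2.2 (h1 i hi).2.2.1 n

theorem IsWeight.subAv {W N : ℕ} {R : ℝ} {V : ℕ → ℝ} (h : IsWeight W N R V) (M K : ℕ) :
    IsWeight W N R (V - Av M K V) := by
  obtain ⟨I, d, f, h1, h2⟩ := h
  refine ⟨I, d, fun i => f i - Av M K (f i), fun i hi => ?_, fun n => ?_⟩
  · obtain ⟨h3, h4, h5, h6⟩ := h1 i hi
    refine ⟨h3, h4, h5, fun n => ?_⟩
    show (f i - Av M K (f i)) (n + W * d i) = (f i - Av M K (f i)) n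
    rw [Pi.sub_apply, Pi.sub_apply, h6 n, Av_per (M := M) (K := K) h6 n]
  · have h3 : V = ∑ i ∈ I, f i := by
      funext m
      rw [h2, Finset.sum_apply]
    rw [h3, Av_sum, ← sum_sub_distrib, Finset.sum_apply]

theorem cop_dvd {W N d p : ℕ} (hp : p.Prime) (hW : ¬ p ∣ W) (hd : W * d ∣ N) (hpd : ¬ p ∣ d) :
    W * d ∣ Mc N p := by
  refine dvd_compl hp hd fun h => ?_
  rcases hp.dvd_mul.1 h with h1 | h1
  · exact hW h1
  · exact hpd h1

theorem IsWeight.big {W N p : ℕ} {R : ℝ} {V : ℕ → ℝ} (h : IsWeight W N R V) (hp : p.Prime)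
    (hW : ¬ p ∣ W) (hR : R < (p : ℝ)) : Function.Periodic V (Mc N p) := by
  obtain ⟨I, d, f, h1, h2⟩ := h
  intro n
  rw [h2, h2]
  refine sum_congr rfl fun i hi => ?_
  obtain ⟨h3, h4, h5, h6⟩ := h1 i hi
  refine per_of_dvd h6 (cop_dvd hp hW h5 fun hpd => ?_) n
  have h7 : (p : ℝ) ≤ d i := by exact_mod_cast Nat.le_of_dvd h3 hpd
  linarith

/-- the level inequality -/
theorem IsWeight.lev {W N : ℕ} {R : ℝ} {V : ℕ → ℝ} (h : IsWeight W N R V) (hN : 0 < N)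
    {P : Finset ℕ} (hP : ∀ p ∈ P, p.Prime ∧ p ∣ N) (hW : ∀ p ∈ P, ¬ p ∣ W) :
    ∑ p ∈ P, Real.log p * SS N (V - Av (Mc N p) (Kc N p) V) ≤ Real.log R * SS N V := by
  classical
  obtain ⟨I, d, f, h1, h2⟩ := h
  have hV : V = ∑ i ∈ I, f i := by
    funext m
    rw [h2, Finset.sum_apply]
  have hD := datc hN hP
  rw [hV]
  refine anova N (Mc N) (Kc N) (fun i => (d i).primeFactors) P (fun p hp =>
    ⟨hD.mul p hp, hD.Kpos hp, (hP p hp).1.pos⟩) I f R fun i hi => ?_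
  obtain ⟨h3, h4, h5, h6⟩ := h1 i hi
  refine ⟨per_of_dvd h6 h5, ?_, ?_⟩
  · intro p hp hpd
    refine per_of_dvd h6 (cop_dvd (hP p hp).1 (hW p hp) h5 fun h7 => hpd ?_)
    exact Nat.mem_primeFactors.2 ⟨(hP p hp).1, h7, h3.ne'⟩
  · have h7 : ∏ p ∈ P.filter (fun p => p ∈ (d i).primeFactors), p ∣ d i := by
      have h8 : ∏ p ∈ P.filter (fun p => p ∈ (d i).primeFactors), p ∣
          ∏ p ∈ (d i).primeFactors, p :=
        prod_dvd_prod_of_subset _ _ _ fun p hp => (mem_filter.1 hp).2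
      exact h8.trans (Nat.prod_primeFactors_dvd (d i))
    have h8 := Nat.le_of_dvd h3 h7
    have h9 : ((∏ p ∈ P.filter (fun p => p ∈ (d i).primeFactors), p : ℕ) : ℝ) ≤ d i := by
      exact_mod_cast h8
    rw [Nat.cast_prod] at h9
    exact h9.trans h4

end Pool.Agent.Y830.SQ
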