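import Pool.Agent.H256R2.SC.V
import Pool.Agent.Y830.SQ.Lev

/-!
The capacity of squares of functions of level `R`: the weight of the covering sieve.
-/

set_option autoImplicit false
set_option linter.unusedSectionVars false

namespace Pool.Agent.Y830.SQ

open Finset
open Pool.Agent.H256R2.SC

variable {n : ℕ} {κ : Type} [Fintype κ] [DecidableEq κ]

/-- the covering sieve on a set on which all the counts are exact -/
theorem core2 {α : Type} [DecidableEq α] (𝒜 : Finset α) (col : α → Col n κ)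
    {p g : Fin n → ℝ} {h : Finset (Fin n) → ℝ} {z K : ℝ} (H : Hyp p g h z K)
    (Q δ t N : ℝ) (J : ℕ) (hJ : Even J) (ht : 0 < t) (hN : 0 < N)
    (hQz : 1 ≤ Q)
    (hpz : ∀ i, p i ≤ z) (hg1 : ∀ i, g i ≤ 1) (htg : ∀ i, 3 * t * g i ≤ 1)
    (hug : ∀ i, (Fintype.card κ : ℝ) * g i ≤ 1)
    (hδ : ∀ D : Col n κ, qq p D ≤ Q → 2 * ∑ i with D i ≠ none, g i ≤ δ)
    (hug4 : (Fintype.card κ : ℝ) * δ ≤ 1 / 4)
    (hs : 2 * (Fintype.card κ : ℝ) * ∑ i, 1 / (p i) ^ 2 ≤ 1)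
    (htail : (Fintype.card κ + 1 : ℝ) * (δ ^ 2 + Real.exp (2 * (Fintype.card κ : ℝ) * K / Real.log z
      - Real.log (Q / z) / Real.log z)) ≤ 1 / 8)
    (hmom : (Fintype.card κ : ℝ) * (1 / t) ^ J * Real.exp ((2 + 6 * t) * ∑ i, g i) ≤ 1 / 8)
    (hcnt : ∀ D : Col n κ,
      ((𝒜.filter (fun a => ∀ i, D i ≠ none → col a i = D i)).card : ℝ) = N * nu g D) :
    ∃ V : Col n κ → ℝ, Lv p Q (3 * Q ^ 2) V ∧ 0 < ∑ a ∈ 𝒜, V (col a) ^ 2 ∧
      ∑ a ∈ 𝒜, V (col a) ^ 2 * ∑ k, (if ∀ i, col a i ≠ some k then (1 : ℝ) else 0) ≤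
        1 / 3 * ∑ a ∈ 𝒜, V (col a) ^ 2 := by
  set u : ℝ := (Fintype.card κ : ℝ) with hu
  have hu0 : 0 ≤ u := Nat.cast_nonneg _
  have hQ0 : 0 < Q := by linarith
  have hz0 : 0 < z := by linarith [H.z1]
  set E : ℝ := Real.exp (2 * u * K / Real.log z - Real.log (Q / z) / Real.log z) with hE
  set Z : ℝ := Zs κ g h with hZ
  have hZ1 : 1 ≤ Z := Zs_ge_one H
  have hE0 : 0 < E := Real.exp_pos _
  have hp1 : ∀ i, 1 ≤ p i := fun i => (H.p1 i).le
  have hT : ∑ D : Col n κ with Q / z < qq p D, (yy h D) ^ 2 * nu g D ≤ E * Z :=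
    tail_bound H (Q / z) (by positivity)
  have hE8 : E ≤ 1 / 8 := by
    have : δ ^ 2 + E ≤ (u + 1) * (δ ^ 2 + E) := by nlinarith [sq_nonneg δ]
    nlinarith [sq_nonneg δ]
  have hT8 : E * Z ≤ 1 / 8 * Z := by nlinarith
  set V : Col n κ → ℝ := VV g (yT p h Q) with hV
  have hlow : 3 / 4 * Z ≤ EE g (fun x => (V x) ^ 2) :=
    second_lower H Q δ (E * Z) hug hδ hug4 hQ0 hT hT8
  have hup : ∀ k, EE g (fun x => (V x) ^ 2 * SS J k x) ≤
      δ ^ 2 * Z + E * Z + (1 / t) ^ J * (Real.exp ((2 + 6 * t) * ∑ i, g i) * Z) := fun k =>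
    second_upper H Q δ t (E * Z) J hJ ht htg hug hQ0 hδ hT k
  have e2 : ∑ k : κ, EE g (fun x => (V x) ^ 2 * SS J k x) ≤ 1 / 4 * Z := by
    have h1 : ∑ k : κ, EE g (fun x => (V x) ^ 2 * SS J k x) ≤
        u * (δ ^ 2 * Z + E * Z + (1 / t) ^ J * (Real.exp ((2 + 6 * t) * ∑ i, g i) * Z)) := by
      refine (Finset.sum_le_sum (fun k _ => hup k)).trans ?_
      rw [Finset.sum_const, Finset.card_univ, nsmul_eq_mul]
    have e3 : u * (δ ^ 2 * Z + E * Z) ≤ 1 / 8 * Z := by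
      have : u * (δ ^ 2 + E) ≤ 1 / 8 := by nlinarith [sq_nonneg δ]
      nlinarith
    have e4 : u * ((1 / t) ^ J * (Real.exp ((2 + 6 * t) * ∑ i, g i) * Z)) ≤ 1 / 8 * Z := by
      nlinarith
    nlinarith
  -- level
  have hzJ : (1:ℝ) ≤ z ^ J := one_le_pow₀ H.z1.le
  have hVL : Lv p Q (3 * Q ^ 2) V := by
    refine Lv_mono le_rfl (count_assign (κ := κ) p hp1 hs Q hQ0) ?_
    refine Lv_VV p g hp1 (fun i => (H.g0 i).le) hg1 (yT p h Q) ?_ Q ?_
    · intro D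
      unfold yT
      split_ifs
      · exact yy_abs_le H.h0 H.h1 D
      · simp
    · intro D hD
      by_contra hc
      exact hD (by unfold yT; rw [if_neg hc])
  have hexact : ∀ (F : Col n κ → ℝ) (Q' B' : ℝ), Lv p Q' B' F →
      ∑ a ∈ 𝒜, F (col a) = N * EE g F := by
    intro F Q' B' hF
    have h1 := transfer 𝒜 col p g N 0 Q' B' le_rfl (fun D _ => by rw [hcnt D, sub_self, abs_zero])
      F hF
    rw [zero_mul] at h1
    have h2 := abs_nonpos_iff.1 h1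
    linarith
  have hV2 : ∑ a ∈ 𝒜, V (col a) ^ 2 = N * EE g (fun x => V x ^ 2) := by
    have h1 := Lv_mul hp1 hVL hVL
    have e : (fun x => V x * V x) = fun x => V x ^ 2 := by funext x; ring
    rw [e] at h1
    exact hexact _ _ _ h1
  have hVS : ∀ k, ∑ a ∈ 𝒜, V (col a) ^ 2 * SS J k (col a) =
      N * EE g (fun x => V x ^ 2 * SS J k x) := by
    intro k
    have h1 := Lv_mul hp1 (Lv_mul hp1 hVL hVL) (Lv_SS p hp1 z hpz H.z1.le J k)
    have e : (fun x : Col n κ => V x * V x * SS J k x) = fun x => V x ^ 2 * SS J k x := by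
      funext x; ring
    rw [e] at h1
    exact hexact _ _ _ h1
  have hbig : N * (3 / 4 * Z) ≤ ∑ a ∈ 𝒜, V (col a) ^ 2 := by
    rw [hV2]
    exact mul_le_mul_of_nonneg_left hlow hN.le
  refine ⟨V, hVL, ?_, ?_⟩
  · refine lt_of_lt_of_le ?_ hbig
    positivity
  · have h1 : ∑ a ∈ 𝒜, V (col a) ^ 2 * ∑ k, (if ∀ i, col a i ≠ some k then (1 : ℝ) else 0) ≤
        ∑ a ∈ 𝒜, V (col a) ^ 2 * ∑ k, SS J k (col a) := by
      refine Finset.sum_le_sum fun a _ => mul_le_mul_of_nonneg_left ?_ (sq_nonneg _)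
      exact Finset.sum_le_sum fun k _ => SS_lower J hJ k (col a)
    have h2 : ∑ a ∈ 𝒜, V (col a) ^ 2 * ∑ k, SS J k (col a) =
        N * ∑ k : κ, EE g (fun x => (V x) ^ 2 * SS J k x) := by
      simp only [Finset.mul_sum]
      rw [Finset.sum_comm]
      exact Finset.sum_congr rfl fun k _ => hVS k
    rw [h2] at h1
    have h3 := mul_le_mul_of_nonneg_left e2 hN.le
    linarith

end Pool.Agent.Y830.SQ
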