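import Pool.Agent.Y830.SQ.Cap2
import Pool.Agent.Y830.SQ.Win

/-!
The threshold is sharp.
-/

set_option autoImplicit false

namespace Pool.Agent.Y830.SQ

open Finset
open Pool.Agent.Y835.SB

theorem mu_low : ∃ c : ℝ, 0 < c ∧ ∀ k z : ℕ, 3 ≤ k → k ≤ z → ∀ H P : Finset ℕ,
    (∀ p ∈ P, p.Prime ∧ k ≤ p ∧ p ≤ z) → c * H.card * (Real.log k / Real.log z) ≤ mu H P := by
  obtain ⟨C, hC0, hC⟩ := mer_local
  refine ⟨Real.exp (-(C + 2)), Real.exp_pos _, fun k z hk hkz H P hP => ?_⟩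
  have h1 := DD_ratio (s := 0) (Q := P) fun q hq => by
    have := (hP q hq).2.1
    omega
  have h2 := hC k z hk hkz P hP
  have h3 : DD 0 P = 1 := by
    unfold DD
    refine prod_eq_one fun q _ => ?_
    simp
  have hlk := one_le_log hk
  have hlz := one_le_log (hk.trans hkz)
  rw [h3] at h1
  have h4 : Real.exp (∑ q ∈ P, 1 / (q : ℝ) + 2 * (((0 : ℕ) : ℝ) + 1)) ≤
      Real.exp (C + 2) * (Real.log z / Real.log k) := by
    have h5 : Real.exp (C + 2) * (Real.log z / Real.log k) =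
        Real.exp (C + 2 + Real.log (Real.log z / Real.log k)) := by
      rw [Real.exp_add (C + 2), Real.exp_log (by positivity)]
    rw [h5]
    refine Real.exp_le_exp.2 ?_
    push_cast
    linarith
  have hDD := DD_pos (s := 1) (Q := P) fun q hq => by
    have := (hP q hq).2.1
    omega
  have h5 : 1 ≤ DD 1 P * (Real.exp (C + 2) * (Real.log z / Real.log k)) :=
    h1.trans (mul_le_mul_of_nonneg_left h4 hDD.le)
  have h6 : Real.exp (-(C + 2)) * (Real.log k / Real.log z) ≤ DD 1 P := by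
    rw [Real.exp_neg]
    have h7 : 0 < Real.exp (C + 2) * (Real.log z / Real.log k) := by positivity
    have h8 : (Real.exp (C + 2))⁻¹ * (Real.log k / Real.log z) =
        1 / (Real.exp (C + 2) * (Real.log z / Real.log k)) := by
      field_simp
    rw [h8, div_le_iff₀ h7]
    exact h5
  rw [mu_eq]
  have h7 := mul_le_mul_of_nonneg_left h6 (Nat.cast_nonneg (α := ℝ) H.card)
  linarith

/-- squares of functions of level `R` do sieve out `c log R` sites -/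
theorem capacity : ∃ c : ℝ, 0 < c ∧ ∃ R₀ : ℝ, ∀ (R : ℝ) (H P : Finset ℕ) (N : ℕ), R₀ ≤ R →
    (H.card : ℝ) ≤ c * Real.log R → Ok H P 1 N →
    (∀ p : ℕ, p.Prime → (Real.log R) ^ 2 < p → (p : ℝ) ≤ R ^ (1 / 10 : ℝ) → p ∈ P) →
    ∃ V : ℕ → ℝ, IsWeight 1 N R V ∧ 0 < SS N V ∧
      ∑ n ∈ range N, V n ^ 2 * ((SV H P n).card : ℝ) ≤ 1 / 3 * SS N V := by
  classical
  obtain ⟨c, hc, X₀, HX⟩ := capacity_abs
  refine ⟨c, hc, X₀, fun R H P N hR hH hok hP => ?_⟩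
  obtain ⟨V, h1, h2, h3⟩ := HX R hR {h // h ∈ H} (by rw [Fintype.card_coe]; exact hH)
    (fun _ k => -((k.1 : ℕ) : ℤ)) (fun p hp hp1 hp2 k l hkl hd => by
      obtain ⟨_, _, _, h4⟩ := hok.2 p (hP p hp hp1 hp2)
      apply hkl
      apply Subtype.ext
      refine h4 k.2 l.2 ?_
      show k.1 % p = l.1 % p
      have h5 : (p : ℤ) ∣ (l.1 : ℤ) - (k.1 : ℤ) := by
        have e : -((k.1 : ℕ) : ℤ) - -((l.1 : ℕ) : ℤ) = (l.1 : ℤ) - (k.1 : ℤ) := by ring
        rwa [e] at hd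
      exact (Nat.modEq_iff_dvd.2 h5)) N hok.1 (fun p hp hp1 hp2 => (hok.2 p (hP p hp hp1 hp2)).2.1)
  refine ⟨V, h1, h2, le_trans (sum_le_sum fun n _ => ?_) h3⟩
  refine mul_le_mul_of_nonneg_left ?_ (sq_nonneg _)
  have h4 : ((SV H P n).card : ℝ) = ∑ h ∈ H, if ∀ q ∈ P, ¬ q ∣ n + h then (1 : ℝ) else 0 := by
    unfold SV
    rw [sum_boole]
  rw [h4, ← sum_coe_sort H (fun h => if ∀ q ∈ P, ¬ q ∣ n + h then (1 : ℝ) else 0)]
  refine sum_le_sum fun k _ => ?_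
  split_ifs with h5 h6 h6
  · exact le_rfl
  · exfalso
    apply h6
    intro p hp hp1 hp2 hd
    refine h5 p (hP p hp hp1 hp2) ?_
    have e : (n : ℤ) - -((k.1 : ℕ) : ℤ) = ((n + k.1 : ℕ) : ℤ) := by push_cast; ring
    rw [e] at hd
    exact_mod_cast hd
  · norm_num
  · exact le_rfl

end Pool.Agent.Y830.SQ
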