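import Pool.Agent.Y830.SQ.Ind

/-!
From binomial coefficients and densities to `μ ^ r / r!`.
-/

set_option autoImplicit false

namespace Pool.Agent.Y830.SQ

open Finset
open Pool.Agent.Y835.SB

theorem sum_sq_inv {k : ℕ} (hk : 2 ≤ k) (P : Finset ℕ) (hP : ∀ p ∈ P, k ≤ p) :
    ∑ p ∈ P, 1 / (p : ℝ) ^ 2 ≤ 2 / (k : ℝ) := by
  have h0 : ∀ m : ℕ, k ≤ m → ∑ n ∈ Icc k m, 1 / ((n : ℝ) * (n - 1)) = 1 / ((k : ℝ) - 1) - 1 / (m : ℝ) := by
    intro m hm
    have hk0 : (1 : ℝ) < k := by exact_mod_cast (by omega : 1 < k)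
    have hk1 : (k : ℝ) - 1 ≠ 0 := by linarith
    have hk2 : (k : ℝ) ≠ 0 := by linarith
    induction m, hm using Nat.le_induction with
    | base =>
      rw [Icc_self, sum_singleton]
      field_simp
      ring
    | succ m hm ih =>
      rw [Finset.sum_Icc_succ_top (by omega : k ≤ m + 1), ih]
      have hm0 : (m : ℝ) ≠ 0 := by exact_mod_cast (by omega : m ≠ 0)
      have hm1 : (m : ℝ) + 1 ≠ 0 := by positivity
      push_cast
      rw [add_sub_cancel_right]
      field_simp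
      ring
  have h1 : P ⊆ Icc k (P.sup id + k) := by
    intro p hp
    rw [mem_Icc]
    have : p ≤ P.sup id := le_sup (f := id) hp
    exact ⟨hP p hp, by omega⟩
  have h2 : ∑ p ∈ P, 1 / (p : ℝ) ^ 2 ≤ ∑ n ∈ Icc k (P.sup id + k), 1 / ((n : ℝ) * (n - 1)) := by
    calc ∑ p ∈ P, 1 / (p : ℝ) ^ 2 ≤ ∑ n ∈ Icc k (P.sup id + k), 1 / (n : ℝ) ^ 2 :=
          sum_le_sum_of_subset_of_nonneg h1 fun n _ _ => by positivity
      _ ≤ _ := by
          refine sum_le_sum fun n hn => ?_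
          rw [mem_Icc] at hn
          have h3 : (1 : ℝ) < n := by exact_mod_cast (by omega : 1 < n)
          refine one_div_le_one_div_of_le (mul_pos (by linarith) (by linarith)) ?_
          nlinarith
  refine h2.trans ?_
  rw [h0 _ (by omega)]
  have hk0 : (2 : ℝ) ≤ k := by exact_mod_cast hk
  have h3 : (0 : ℝ) ≤ 1 / ((P.sup id + k : ℕ) : ℝ) := by positivity
  have h4 : 1 / ((k : ℝ) - 1) ≤ 2 / k := by
    rw [div_le_div_iff₀ (by linarith) (by linarith)]
    linarith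
  linarith

theorem prod_ge_one_sub {ι : Type} (s : Finset ι) (a : ι → ℝ) (h0 : ∀ i ∈ s, 0 ≤ a i)
    (h1 : ∀ i ∈ s, a i ≤ 1) : 1 - ∑ i ∈ s, a i ≤ ∏ i ∈ s, (1 - a i) := by
  classical
  induction s using Finset.induction_on with
  | empty => simp
  | insert i s hi ih =>
    have h0' := fun j hj => h0 j (mem_insert_of_mem hj)
    have h1' := fun j hj => h1 j (mem_insert_of_mem hj)
    have ih' := ih h0' h1'
    rw [Finset.sum_insert hi, Finset.prod_insert hi]
    have hp : ∏ j ∈ s, (1 - a j) ≤ 1 :=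
      Finset.prod_le_one (fun j hj => by linarith [h1' j hj]) (fun j hj => by linarith [h0' j hj])
    have hp0 : 0 ≤ ∏ j ∈ s, (1 - a j) := Finset.prod_nonneg (fun j hj => by linarith [h1' j hj])
    nlinarith [h0 i (mem_insert_self i s)]

theorem DD_le_pow (r : ℕ) (P : Finset ℕ) (hP : ∀ p ∈ P, 2 * r < p) :
    DD r P ≤ DD 1 P ^ r := by
  unfold DD
  rw [← prod_pow]
  refine prod_le_prod (fun p hp => ?_) fun p hp => ?_
  · have h1 : (2 : ℝ) * r < p := by exact_mod_cast hP p hp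
    have hr : (0 : ℝ) ≤ r := Nat.cast_nonneg r
    rw [sub_nonneg, div_le_one (by linarith)]
    linarith
  · have h1 := one_add_mul_le_pow (a := -(1 / (p : ℝ))) (by
      have hp1 : (1 : ℝ) ≤ p := by exact_mod_cast (by have := hP p hp; omega : 1 ≤ p)
      have : 1 / (p : ℝ) ≤ 1 := by rw [div_le_one (by linarith)]; exact hp1
      linarith) r
    refine le_trans (le_of_eq ?_) (h1.trans (le_of_eq ?_))
    · ring
    · rw [Nat.cast_one]; ring

theorem DD_ge_pow {r k : ℕ} (hk : 2 ≤ k) (hkr : 2 * r < k) (P : Finset ℕ) (hP : ∀ p ∈ P, k ≤ p) :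
    (1 - 2 * (r : ℝ) ^ 2 / k) * DD 1 P ^ r ≤ DD r P := by
  have hterm : ∀ p ∈ P, (1 - (r : ℝ) ^ 2 * (1 / (p : ℝ) ^ 2)) * (1 - ((1 : ℕ) : ℝ) / p) ^ r ≤
      1 - (r : ℝ) / p := by
    intro p hp
    have h1 : (2 : ℝ) * r < p := by exact_mod_cast (by have := hP p hp; omega : 2 * r < p)
    have hr : (0 : ℝ) ≤ r := Nat.cast_nonneg r
    have hp0 : (0 : ℝ) < p := by linarith
    have hp1 : (1 : ℝ) ≤ p := by exact_mod_cast (by have := hP p hp; omega : 1 ≤ p)
    set x : ℝ := 1 / (p : ℝ) with hx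
    have hx0 : 0 ≤ x := by positivity
    have hx1 : x ≤ 1 := by rw [hx, div_le_one hp0]; exact hp1
    have hrx : (r : ℝ) * x ≤ 1 := by
      rw [hx, mul_one_div, div_le_one hp0]
      linarith
    have h2 : (1 - x) ^ r * (1 + r * x) ≤ 1 := by
      have h3 := one_add_mul_le_pow (a := x) (by linarith) r
      have h4 : (1 - x) ^ r * (1 + x) ^ r ≤ 1 := by
        rw [← mul_pow]
        exact pow_le_one₀ (mul_nonneg (by linarith) (by linarith)) (by nlinarith)
      have h5 : 0 ≤ (1 - x) ^ r := pow_nonneg (by linarith) r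
      have h6 := mul_le_mul_of_nonneg_left h3 h5
      linarith
    have e1 : 1 - (r : ℝ) ^ 2 * (1 / (p : ℝ) ^ 2) = (1 + r * x) * (1 - r * x) := by
      rw [hx]
      field_simp
      ring
    have e2 : (1 : ℝ) - ((1 : ℕ) : ℝ) / p = 1 - x := by rw [Nat.cast_one]
    have e3 : (1 : ℝ) - (r : ℝ) / p = 1 - r * x := by rw [hx, mul_one_div]
    rw [e1, e2, e3]
    have h7 : 0 ≤ 1 - r * x := by linarith
    nlinarith
  have hnn : ∀ p ∈ P, 0 ≤ (1 - (r : ℝ) ^ 2 * (1 / (p : ℝ) ^ 2)) * (1 - ((1 : ℕ) : ℝ) / p) ^ r := by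
    intro p hp
    have h1 : (2 : ℝ) * r < p := by exact_mod_cast (by have := hP p hp; omega : 2 * r < p)
    have hr : (0 : ℝ) ≤ r := Nat.cast_nonneg r
    have hp0 : (0 : ℝ) < p := by linarith
    have hp1 : (1 : ℝ) ≤ p := by exact_mod_cast (by have := hP p hp; omega : 1 ≤ p)
    refine mul_nonneg ?_ (pow_nonneg ?_ _)
    · rw [mul_one_div, sub_nonneg, div_le_one (by positivity)]
      exact pow_le_pow_left₀ hr (by linarith) 2
    · rw [Nat.cast_one, sub_nonneg, div_le_one hp0]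
      exact hp1
  have h1 := prod_le_prod hnn hterm
  rw [prod_mul_distrib, prod_pow] at h1
  refine le_trans ?_ h1
  have hD0 : 0 ≤ DD 1 P ^ r := by
    refine pow_nonneg (prod_nonneg fun p hp => ?_) r
    have hp1 : (1 : ℝ) ≤ p := by exact_mod_cast (by have := hP p hp; omega : 1 ≤ p)
    rw [Nat.cast_one, sub_nonneg, div_le_one (by linarith)]
    exact hp1
  refine mul_le_mul_of_nonneg_right ?_ hD0
  have h2 : 1 - ∑ p ∈ P, (r : ℝ) ^ 2 * (1 / (p : ℝ) ^ 2) ≤
      ∏ p ∈ P, (1 - (r : ℝ) ^ 2 * (1 / (p : ℝ) ^ 2)) := by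
    refine prod_ge_one_sub P _ (fun p _ => by positivity) fun p hp => ?_
    have h1 : (2 : ℝ) * r < p := by exact_mod_cast (by have := hP p hp; omega : 2 * r < p)
    have hr : (0 : ℝ) ≤ r := Nat.cast_nonneg r
    have hp0 : (0 : ℝ) < p := by linarith
    rw [mul_one_div, div_le_one (by positivity)]
    exact pow_le_pow_left₀ hr (by linarith) 2
  refine le_trans ?_ h2
  rw [← mul_sum]
  have h3 := sum_sq_inv hk P hP
  have h4 := mul_le_mul_of_nonneg_left h3 (by positivity : (0 : ℝ) ≤ (r : ℝ) ^ 2)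
  have e : (r : ℝ) ^ 2 * (2 / k) = 2 * (r : ℝ) ^ 2 / k := by ring
  linarith

end Pool.Agent.Y830.SQ
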