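import Pool.Agent.Y835.SB.Rec

/-!
The fibre inequalities when a prime hits `r` sites, in both directions.
-/

set_option autoImplicit false

namespace Pool.Agent.Y830.SQ

open Finset
open Pool.Agent.Y835.SB

/-- the two inequalities on one fibre -/
theorem fib2 {K p r : ℕ} (hp : 0 < p) (g : ℕ → ℝ) (Z : Finset ℕ) (hZ : Z ⊆ range K)
    (hc : Z.card * p = r * K) (hK : 0 < K) {η : ℝ} (hη : 0 < η) :
    (1 - (1 + η) * (r / p)) * ∑ t ∈ range K, g t ^ 2 -
        (1 + 1 / η) * ∑ t ∈ Z, (g t - (∑ t ∈ range K, g t) / K) ^ 2 ≤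
        ∑ t ∈ range K \ Z, g t ^ 2 ∧
      ∑ t ∈ range K \ Z, g t ^ 2 ≤ (1 - (1 - η) * (r / p)) * ∑ t ∈ range K, g t ^ 2 +
        (r / p) * ∑ t ∈ range K, (g t - (∑ t ∈ range K, g t) / K) ^ 2 +
        (1 / η) * ∑ t ∈ Z, (g t - (∑ t ∈ range K, g t) / K) ^ 2 := by
  set c : ℝ := (∑ t ∈ range K, g t) / K with hcdef
  have hK0 : (0 : ℝ) < K := by exact_mod_cast hK
  have hp0 : (0 : ℝ) < p := by exact_mod_cast hp
  have hcard : (Z.card : ℝ) * p = r * K := by exact_mod_cast hc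
  set m : ℝ := (Z.card : ℝ) with hm
  have hm0 : 0 ≤ m := Nat.cast_nonneg _
  have hmK : m = r / p * K := by
    field_simp
    linarith
  set A : ℝ := ∑ t ∈ Z, (g t - c) with hA
  set B : ℝ := ∑ t ∈ Z, (g t - c) ^ 2 with hB
  set G : ℝ := ∑ t ∈ range K, (g t - c) ^ 2 with hG
  have hB0 : 0 ≤ B := sum_nonneg fun _ _ => sq_nonneg _
  have hG0 : 0 ≤ G := sum_nonneg fun _ _ => sq_nonneg _
  have hs : ∑ t ∈ range K, g t = c * K := by rw [hcdef]; field_simp
  have hs0 : ∑ t ∈ range K, (g t - c) = 0 := by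
    rw [sum_sub_distrib, sum_const, card_range, nsmul_eq_mul, hs]; ring
  have hsq : ∑ t ∈ range K, g t ^ 2 = c ^ 2 * K + G := by
    have : ∑ t ∈ range K, g t ^ 2 = G + 2 * c * ∑ t ∈ range K, (g t - c) + K * c ^ 2 := by
      have e : (K : ℝ) * c ^ 2 = ∑ _t ∈ range K, c ^ 2 := by
        rw [sum_const, card_range, nsmul_eq_mul]
      rw [e, mul_sum, hG, ← sum_add_distrib, ← sum_add_distrib]
      exact sum_congr rfl fun t _ => by ring
    rw [this, hs0]; ring
  have hZsq : ∑ t ∈ Z, g t ^ 2 = B + 2 * c * A + m * c ^ 2 := by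
    have e : m * c ^ 2 = ∑ _t ∈ Z, c ^ 2 := by
      rw [sum_const, nsmul_eq_mul]
    rw [e, mul_sum, hB, ← sum_add_distrib, ← sum_add_distrib]
    exact sum_congr rfl fun t _ => by ring
  have hrest : ∑ t ∈ range K \ Z, g t ^ 2 = c ^ 2 * K + G - (B + 2 * c * A + m * c ^ 2) := by
    have := sum_sdiff hZ (f := fun t => g t ^ 2)
    linarith
  have hcs : A ^ 2 ≤ m * B := sq_sum_le_card_mul_sum_sq
  -- the cross term
  have hcross : |2 * c * A| ≤ η * (m * c ^ 2) + 1 / η * B := by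
    have h1 : (2 * c * A) ^ 2 ≤ (η * (m * c ^ 2) + 1 / η * B) ^ 2 := by
      have h2 : (2 * c * A) ^ 2 ≤ 4 * c ^ 2 * (m * B) := by nlinarith [sq_nonneg c]
      have h3 : 4 * c ^ 2 * (m * B) ≤ (η * (m * c ^ 2) + 1 / η * B) ^ 2 := by
        have h5 : η * (1 / η) = 1 := mul_one_div_cancel hη.ne'
        have h4 : (η * (m * c ^ 2) + 1 / η * B) ^ 2 - 4 * c ^ 2 * (m * B) =
            (η * (m * c ^ 2) - 1 / η * B) ^ 2 := by
          linear_combination (4 * (m * c ^ 2) * B) * h5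
        nlinarith [sq_nonneg (η * (m * c ^ 2) - 1 / η * B)]
      exact h2.trans h3
    have hX0 : 0 ≤ η * (m * c ^ 2) := mul_nonneg hη.le (mul_nonneg hm0 (sq_nonneg c))
    have hY0 : 0 ≤ 1 / η * B := mul_nonneg (one_div_pos.2 hη).le hB0
    exact abs_le_of_sq_le_sq h1 (add_nonneg hX0 hY0)
  have hab := abs_le.1 hcross
  have hmc : m * c ^ 2 = r / p * (c ^ 2 * K) := by rw [hmK]; ring
  set ρ : ℝ := r / p with hρ
  have hρ0 : 0 ≤ ρ := by positivity
  rw [hmc] at hab hrest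
  rw [hrest, hsq]
  constructor
  · have h1 : (1 - (1 + η) * ρ) * (c ^ 2 * K + G) - (1 + 1 / η) * B =
        c ^ 2 * K + G - (B + (η * (ρ * (c ^ 2 * K)) + 1 / η * B) + ρ * (c ^ 2 * K)) -
          (1 + η) * ρ * G := by ring
    have h2 : 0 ≤ (1 + η) * ρ * G := by positivity
    rw [h1]
    linarith [hab.2]
  · have h1 : (1 - (1 - η) * ρ) * (c ^ 2 * K + G) + ρ * G + 1 / η * B =
        c ^ 2 * K + G + η * (ρ * (c ^ 2 * K)) + 1 / η * B - ρ * (c ^ 2 * K) + η * ρ * G := by ring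
    have h2 : 0 ≤ η * ρ * G := by positivity
    rw [h1]
    linarith [hab.1]

open Classical in
/-- the number of points of a fibre at which some site of `T` is hit -/
theorem fib_cardT {K M p k : ℕ} (hp : p.Prime) (hK : K = p ^ k) (hk : 1 ≤ k) (hM : ¬ p ∣ M)
    (T : Finset ℕ) (hT : Set.InjOn (fun h => h % p) (T : Set ℕ)) (a : ℕ) :
    ((range K).filter (fun t => ∃ h ∈ T, p ∣ a + h + M * t)).card * p = T.card * K := by
  have h1 : (range K).filter (fun t => ∃ h ∈ T, p ∣ a + h + M * t) =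
      T.biUnion (fun h => (range K).filter (fun t => p ∣ a + h + M * t)) := by
    ext t
    simp only [mem_filter, mem_biUnion]
    tauto
  rw [h1, card_biUnion, sum_mul, sum_congr rfl fun h _ => fib_card hp hK hk hM (a + h), sum_const,
    smul_eq_mul]
  intro h hh h' hh' hne
  rw [Function.onFun, disjoint_left]
  intro t ht ht'
  rw [mem_filter] at ht ht'
  refine hne (hT hh hh' ?_)
  show h % p = h' % p
  have h2 : (a + h + M * t) ≡ (a + h' + M * t) [MOD p] := by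
    rw [Nat.ModEq, Nat.mod_eq_zero_of_dvd ht.2, Nat.mod_eq_zero_of_dvd ht'.2]
  have h3 : a + h ≡ a + h' [MOD p] := Nat.ModEq.add_right_cancel' _ h2
  exact Nat.ModEq.add_left_cancel' _ h3

end Pool.Agent.Y830.SQ
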