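import Pool.Agent.Y830.SQ.Cap3

/-!
The optimality of the threshold `log R`.
-/

set_option autoImplicit false

namespace Pool.Agent.Y830.SQ

open Finset
open Pool.Agent.Y835.SB

open Classical in
theorem sharp : ∃ c : ℝ, 0 < c ∧ ∀ M : ℝ, ∃ R₀ : ℝ, ∀ (R : ℝ) (H P : Finset ℕ) (N : ℕ), R₀ ≤ R →
    c / 2 * Real.log R ≤ H.card → (H.card : ℝ) ≤ c * Real.log R →
    (∀ p : ℕ, p ∈ P ↔ p.Prime ∧ (Real.log R) ^ 2 < p ∧ (p : ℝ) ≤ R ^ (1 / 10 : ℝ)) →
    Ok H P 1 N → M ≤ mu H P ∧ ∃ V : ℕ → ℝ, IsWeight 1 N R V ∧ 0 < SS N V ∧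
      ∑ n ∈ range N, V n ^ 2 * ((SV H P n).card : ℝ) ≤ 1 / 3 * SS N V := by
  obtain ⟨c, hc, R₀, h0⟩ := capacity
  obtain ⟨c', hc', h1⟩ := mu_low
  refine ⟨c, hc, fun M => ?_⟩
  -- the parameters
  set T : ℝ := max 2 (max (|M| / (c' * c)) (Real.log (Real.exp 1 + 1) + 1)) with hT
  have hT2 : 2 ≤ T := le_max_left _ _
  have hTM : |M| / (c' * c) ≤ T := (le_max_left _ _).trans (le_max_right _ _)
  -- `log R ≥ e ^ T`
  have hev : ∀ᶠ x : ℝ in Filter.atTop, 20 * Real.log x + 40 ≤ x := by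
    have h2 := Real.isLittleO_log_id_atTop.bound (show (0 : ℝ) < 1 / 40 by norm_num)
    filter_upwards [h2, Filter.eventually_ge_atTop (100 : ℝ)] with x hx hx1
    rw [Real.norm_eq_abs, Real.norm_eq_abs, id, abs_of_nonneg (by linarith : (0 : ℝ) ≤ x)] at hx
    have := le_abs_self (Real.log x)
    linarith
  obtain ⟨L₀, hL₀⟩ := Filter.eventually_atTop.1 hev
  refine ⟨max (max R₀ 2) (Real.exp (max (max L₀ 2) (Real.exp T))), fun R H P N hR hH1 hH2 hP hok => ?_⟩
  have hR0 : R₀ ≤ R := (le_max_left _ _).trans ((le_max_left _ _).trans hR)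
  have hR2 : 2 ≤ R := (le_max_right _ _).trans ((le_max_left _ _).trans hR)
  have hRE : Real.exp (max (max L₀ 2) (Real.exp T)) ≤ R := (le_max_right _ _).trans hR
  set L : ℝ := Real.log R with hL
  have hLm : max (max L₀ 2) (Real.exp T) ≤ L := by
    rw [hL, Real.le_log_iff_exp_le (by linarith)]
    exact hRE
  have hLL : L₀ ≤ L := (le_max_left _ _).trans ((le_max_left _ _).trans hLm)
  have hL2 : 2 ≤ L := (le_max_right _ _).trans ((le_max_left _ _).trans hLm)
  have hLT : Real.exp T ≤ L := (le_max_right _ _).trans hLm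
  have hl : T ≤ Real.log L := by
    rw [Real.le_log_iff_exp_le (by linarith)]
    exact hLT
  have hbig := hL₀ L hLL
  refine ⟨?_, h0 R H P N hR0 hH2 hok fun p hp1 hp2 hp3 => (hP p).2 ⟨hp1, hp2, hp3⟩⟩
  -- the range of the primes
  set k : ℕ := ⌈L ^ 2⌉₊ with hk
  set z : ℕ := ⌊R ^ (1 / 10 : ℝ)⌋₊ with hz
  have hRpos : (0 : ℝ) < R := by linarith
  have hz10 : R ^ (1 / 10 : ℝ) = Real.exp (L / 10) := by
    rw [Real.rpow_def_of_pos hRpos]
    congr 1
    rw [hL]
    ring
  have hL2k : L ^ 2 ≤ k := Nat.le_ceil _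
  have hk3 : 3 ≤ k := by
    have h2 : (4 : ℝ) ≤ L ^ 2 := by nlinarith
    have h3 : (4 : ℝ) ≤ k := h2.trans hL2k
    have h4 : 4 ≤ k := by exact_mod_cast h3
    omega
  have hkz : k ≤ z := by
    rw [hz]
    refine Nat.le_floor ?_
    have h2 : (k : ℝ) ≤ L ^ 2 + 1 := (Nat.ceil_lt_add_one (by positivity)).le
    have h3 : L ^ 2 + 1 ≤ Real.exp (L / 10) := by
      have h4 : L ^ 2 + 1 ≤ L ^ 2 * Real.exp 1 := by
        have h5 := Real.add_one_le_exp (1 : ℝ)
        have h6 : (4 : ℝ) ≤ L ^ 2 := by nlinarith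
        nlinarith
      refine h4.trans ?_
      have h5 : L ^ 2 = Real.exp (2 * Real.log L) := by
        rw [two_mul, Real.exp_add, Real.exp_log (by linarith)]
        ring
      rw [h5, ← Real.exp_add]
      exact Real.exp_le_exp.2 (by linarith)
    rw [hz10]
    linarith
  have h2 := h1 k z hk3 hkz H P fun p hp => by
    obtain ⟨g1, g2, g3⟩ := (hP p).1 hp
    exact ⟨g1, Nat.ceil_le.2 g2.le, Nat.le_floor g3⟩
  refine le_trans ?_ h2
  have hlk : 2 * Real.log L ≤ Real.log k := by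
    have h3 : Real.log (L ^ 2) ≤ Real.log k := Real.log_le_log (by positivity) hL2k
    rw [Real.log_pow] at h3
    push_cast at h3
    exact h3
  have hlz : Real.log z ≤ L / 10 := by
    have h3 : (z : ℝ) ≤ Real.exp (L / 10) := by
      rw [← hz10]
      exact Nat.floor_le (by positivity)
    have hz0 : (0 : ℝ) < z := by exact_mod_cast (by omega : 0 < z)
    rw [← Real.log_exp (L / 10)]
    exact Real.log_le_log hz0 h3
  have hlz0 : 0 < Real.log z := by
    have := one_le_log (hk3.trans hkz)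
    linarith
  have h3 : 20 * Real.log L / L ≤ Real.log k / Real.log z := by
    rw [div_le_div_iff₀ (by linarith) hlz0]
    have hlL : 0 ≤ Real.log L := by linarith
    nlinarith
  have h4 : c' * (c / 2 * L) * (20 * Real.log L / L) ≤ c' * H.card * (Real.log k / Real.log z) := by
    refine mul_le_mul (mul_le_mul_of_nonneg_left hH1 hc'.le) h3 ?_ (by positivity)
    have hlL : 0 ≤ Real.log L := by linarith
    positivity
  refine le_trans ?_ h4
  have h5 : c' * (c / 2 * L) * (20 * Real.log L / L) = 10 * (c' * c * Real.log L) := by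
    field_simp
    ring
  rw [h5]
  have h6 : |M| ≤ c' * c * Real.log L := by
    rw [div_le_iff₀ (by positivity)] at hTM
    have h7 := mul_le_mul_of_nonneg_left hl (by positivity : 0 ≤ c' * c)
    linarith
  have h7 := le_abs_self M
  have h8 := abs_nonneg M
  linarith

end Pool.Agent.Y830.SQ
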