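import Pool.Agent.Y830.SQ.Poi

/-!
The Poisson law in total variation, and the law of large numbers.
-/

set_option autoImplicit false

namespace Pool.Agent.Y830.SQ

open Finset
open Pool.Agent.Y835.SB

theorem law_upto (M : ℝ) (hM : 0 < M) (J : ℕ) (ε : ℝ) (hε : 0 < ε) : ∃ C : ℝ, 0 < C ∧
    ∀ (R : ℝ) (H P : Finset ℕ) (W N : ℕ) (V : ℕ → ℝ), 2 ≤ R → C * Real.log R ≤ H.card →
      Ok H P W N → IsWeight W N R V → mu H P ≤ M → ∀ j ≤ J,
      |mass N H P V j - Real.exp (-mu H P) * mu H P ^ j / (j.factorial : ℕ) * SS N V| ≤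
        ε * SS N V := by
  induction J with
  | zero =>
    obtain ⟨C, hC, h⟩ := law_pt M hM 0 ε hε
    refine ⟨C, hC, fun R H P W N V h1 h2 h3 h4 h5 j hj => ?_⟩
    obtain rfl : j = 0 := by omega
    exact h R H P W N V h1 h2 h3 h4 h5
  | succ n ih =>
    obtain ⟨C, hC, h⟩ := law_pt M hM (n + 1) ε hε
    obtain ⟨C', hC', h'⟩ := ih
    refine ⟨max C C', lt_of_lt_of_le hC (le_max_left _ _),
      fun R H P W N V h1 h2 h3 h4 h6 j hj => ?_⟩
    have hlR : 0 ≤ Real.log R := Real.log_nonneg (by linarith)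
    rcases Nat.lt_or_ge n j with h5 | h5
    · obtain rfl : j = n + 1 := by omega
      exact h R H P W N V h1 ((mul_le_mul_of_nonneg_right (le_max_left _ _) hlR).trans h2) h3 h4 h6
    · exact h' R H P W N V h1 ((mul_le_mul_of_nonneg_right (le_max_right _ _) hlR).trans h2) h3 h4
        h6 j h5

/-- the Poisson probabilities -/
noncomputable def poi (μ : ℝ) (j : ℕ) : ℝ := Real.exp (-μ) * μ ^ j / (j.factorial : ℕ)

theorem poi_nonneg {μ : ℝ} (hμ : 0 ≤ μ) (j : ℕ) : 0 ≤ poi μ j := by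
  unfold poi
  positivity

theorem poi_hasSum (μ : ℝ) : HasSum (poi μ) 1 := by
  have h1 : HasSum (fun n : ℕ => μ ^ n / (n.factorial : ℕ)) (Real.exp μ) := by
    have h0 := NormedSpace.expSeries_div_hasSum_exp (𝔸 := ℝ) μ
    rwa [← Real.exp_eq_exp_ℝ] at h0
  have h2 := h1.mul_left (Real.exp (-μ))
  rw [← Real.exp_add, neg_add_cancel, Real.exp_zero] at h2
  have h3 : (fun n : ℕ => Real.exp (-μ) * (μ ^ n / (n.factorial : ℕ))) = poi μ := by
    funext n
    unfold poi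
    ring
  rwa [h3] at h2

theorem poi_tail {μ M : ℝ} (hμ : 0 ≤ μ) (hμM : μ ≤ M) {t : ℕ} (ht : 2 * M ≤ t) :
    1 - ∑ j ∈ range t, poi μ j ≤ 2 * (M ^ t / (t.factorial : ℕ)) := by
  have h1 := (exp_tail hμ hμM ht).2
  have h2 : 1 - ∑ j ∈ range t, poi μ j =
      Real.exp (-μ) * (Real.exp μ - ∑ i ∈ range t, μ ^ i / (i.factorial : ℕ)) := by
    rw [mul_sub, ← Real.exp_add, neg_add_cancel, Real.exp_zero, mul_sum]
    congr 1
    refine sum_congr rfl fun i _ => ?_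
    unfold poi
    ring
  rw [h2]
  have h3 : 0 ≤ Real.exp μ - ∑ i ∈ range t, μ ^ i / (i.factorial : ℕ) :=
    sub_nonneg.2 (Real.sum_le_exp_of_nonneg hμ t)
  have h4 : Real.exp (-μ) ≤ 1 := Real.exp_le_one_iff.2 (by linarith)
  exact (mul_le_of_le_one_left h3 h4).trans h1

theorem poi_g {μ : ℝ} (hμ : 0 ≤ μ) {g : ℕ → ℝ} (hg : ∀ j, |g j| ≤ 1) (t : ℕ) :
    |∑' j, poi μ j * g j - ∑ j ∈ range t, poi μ j * g j| ≤ 1 - ∑ j ∈ range t, poi μ j := by
  have hs := (poi_hasSum μ).summable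
  have hab : ∀ j, |poi μ j * g j| ≤ poi μ j := by
    intro j
    rw [abs_mul, abs_of_nonneg (poi_nonneg hμ j)]
    exact mul_le_of_le_one_right (poi_nonneg hμ j) (hg j)
  have hsg : Summable (fun j => poi μ j * g j) := by
    refine Summable.of_norm_bounded hs fun j => ?_
    rw [Real.norm_eq_abs]
    exact hab j
  have h1 := hsg.sum_add_tsum_nat_add t
  have h2 := hs.sum_add_tsum_nat_add t
  rw [(poi_hasSum μ).tsum_eq] at h2
  have h3 : ∑' j, poi μ j * g j - ∑ j ∈ range t, poi μ j * g j =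
      ∑' j, poi μ (j + t) * g (j + t) := by linarith
  rw [h3]
  have h4 : |∑' j, poi μ (j + t) * g (j + t)| ≤ ∑' j, poi μ (j + t) := by
    have h5 : Summable (fun j => poi μ (j + t)) := (summable_nat_add_iff t).2 hs
    rw [← Real.norm_eq_abs]
    refine tsum_of_norm_bounded h5.hasSum fun j => ?_
    rw [Real.norm_eq_abs]
    exact hab (j + t)
  linarith

/-- **The Poisson law.** -/
theorem law (M : ℝ) (hM : 0 < M) (ε : ℝ) (hε : 0 < ε) : ∃ C : ℝ, 0 < C ∧
    ∀ (R : ℝ) (H P : Finset ℕ) (W N : ℕ) (V : ℕ → ℝ), 2 ≤ R → C * Real.log R ≤ H.card →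
      Ok H P W N → IsWeight W N R V → mu H P ≤ M → ∀ g : ℕ → ℝ, (∀ j, |g j| ≤ 1) →
      |∑ n ∈ range N, V n ^ 2 * g (SV H P n).card - (∑' j, poi (mu H P) j * g j) * SS N V| ≤
        ε * SS N V := by
  obtain ⟨t, ht1, ht2, ht3⟩ : ∃ t : ℕ, 2 * M ≤ t ∧ 2 * (M ^ t / (t.factorial : ℕ)) ≤ ε / 8 ∧
      1 ≤ t := by
    have h1 := FloorSemiring.tendsto_pow_div_factorial_atTop M
    have h2 : ∀ᶠ t : ℕ in Filter.atTop, M ^ t / (t.factorial : ℕ) < ε / 16 :=
      h1.eventually_lt_const (by positivity)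
    have h3 : ∀ᶠ t : ℕ in Filter.atTop, 2 * M ≤ t :=
      tendsto_natCast_atTop_atTop.eventually_ge_atTop _
    obtain ⟨t, ⟨h4, h5⟩, h6⟩ := ((h2.and h3).and (Filter.eventually_ge_atTop 1)).exists
    exact ⟨t, h5, by linarith, h6⟩
  have ht0 : (0 : ℝ) < t := by exact_mod_cast ht3
  obtain ⟨C, hC, HC⟩ := law_upto M hM t (ε / (4 * t)) (by positivity)
  refine ⟨C, hC, fun R H P W N V hR hH hok hV hμM g hg => ?_⟩
  have hj := HC R H P W N V hR hH hok hV hμM
  have hμ0 := mu_nonneg hok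
  set μ : ℝ := mu H P with hμ
  have hSS := SS_nonneg N V
  set S := SS N V with hS
  have hj' : ∀ j ∈ range t, |mass N H P V j - poi μ j * S| ≤ ε / (4 * t) * S := fun j hjt =>
    hj j (mem_range.1 hjt).le
  have htail := poi_tail hμ0 hμM ht1
  have hpg := poi_g hμ0 hg t
  set T : ℝ := ∑ j ∈ range t, poi μ j with hT
  have hsumeps : ∑ _j ∈ range t, ε / (4 * t) * S = ε / 4 * S := by
    rw [sum_const, card_range, nsmul_eq_mul]
    field_simp
  -- the split
  have hsplit : ∀ (φ : ℕ → ℝ), ∑ n ∈ range N, V n ^ 2 * φ (SV H P n).card =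
      ∑ j ∈ range t, φ j * mass N H P V j +
      ∑ n ∈ range N, V n ^ 2 * (if t ≤ (SV H P n).card then φ (SV H P n).card else 0) := by
    intro φ
    have h1 : ∑ j ∈ range t, φ j * mass N H P V j = ∑ n ∈ range N, V n ^ 2 *
        ∑ j ∈ range t, (if (SV H P n).card = j then φ j else 0) := by
      unfold mass
      simp only [mul_sum]
      rw [sum_comm]
      refine sum_congr rfl fun n _ => sum_congr rfl fun j _ => ?_
      split_ifs <;> ring
    rw [h1, ← sum_add_distrib]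
    refine sum_congr rfl fun n _ => ?_
    rw [← mul_add, sum_ite_eq]
    congr 1
    by_cases h2 : (SV H P n).card < t
    · rw [if_pos (mem_range.2 h2), if_neg (by omega), add_zero]
    · rw [if_neg (fun h3 => h2 (mem_range.1 h3)), if_pos (by omega), zero_add]
  -- the mass of the large values
  have hlarge : ∑ n ∈ range N, V n ^ 2 * (if t ≤ (SV H P n).card then 1 else 0) ≤
      (1 - T) * S + ε / 4 * S := by
    have h1 := hsplit (fun _ => 1)
    have h2 : ∑ n ∈ range N, V n ^ 2 * (1 : ℝ) = S := by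
      rw [hS]
      unfold SS
      exact sum_congr rfl fun n _ => mul_one _
    rw [h2] at h1
    have h3 : T * S - ε / 4 * S ≤ ∑ j ∈ range t, 1 * mass N H P V j := by
      rw [← hsumeps, hT, sum_mul, ← sum_sub_distrib]
      refine sum_le_sum fun j hjt => ?_
      have := (abs_le.1 (hj' j hjt)).1
      linarith
    linarith
  have h1 : |∑ j ∈ range t, g j * mass N H P V j - (∑ j ∈ range t, poi μ j * g j) * S| ≤
      ε / 4 * S := by
    rw [sum_mul, ← sum_sub_distrib, ← hsumeps]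
    refine (abs_sum_le_sum_abs _ _).trans (sum_le_sum fun j hjt => ?_)
    have h2 : g j * mass N H P V j - poi μ j * g j * S = g j * (mass N H P V j - poi μ j * S) := by
      ring
    rw [h2, abs_mul]
    exact (mul_le_of_le_one_left (abs_nonneg _) (hg j)).trans (hj' j hjt)
  have h2 : |∑ n ∈ range N, V n ^ 2 * (if t ≤ (SV H P n).card then g (SV H P n).card else 0)| ≤
      (1 - T) * S + ε / 4 * S := by
    refine (abs_sum_le_sum_abs _ _).trans (le_trans (sum_le_sum fun n _ => ?_) hlarge)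
    rw [abs_mul, abs_of_nonneg (sq_nonneg (V n))]
    refine mul_le_mul_of_nonneg_left ?_ (sq_nonneg _)
    split_ifs
    · exact hg _
    · rw [abs_zero]
  have h3 : |(∑ j ∈ range t, poi μ j * g j) * S - (∑' j, poi μ j * g j) * S| ≤ (1 - T) * S := by
    rw [← sub_mul, abs_mul, abs_of_nonneg hSS, abs_sub_comm]
    exact mul_le_mul_of_nonneg_right hpg hSS
  rw [hsplit g]
  have h4 : (1 - T) * S ≤ ε / 8 * S := mul_le_mul_of_nonneg_right (by linarith) hSS
  have hεS : 0 ≤ ε * S := mul_nonneg hε.le hSS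
  have h5 := abs_le.1 h1
  have h6 := abs_le.1 h2
  have h7 := abs_le.1 h3
  rw [abs_le]
  constructor
  · linarith
  · linarith

/-- the variance -/
theorem var_le {N : ℕ} {H P : Finset ℕ} {V : ℕ → ℝ} {ε μ : ℝ} (hμ : 0 ≤ μ)
    (h1 : |Bin N H 1 V P - μ ^ 1 / ((1 : ℕ).factorial : ℕ) * SS N V| ≤
      ε * (μ ^ 1 / ((1 : ℕ).factorial : ℕ) * SS N V))
    (h2 : |Bin N H 2 V P - μ ^ 2 / ((2 : ℕ).factorial : ℕ) * SS N V| ≤
      ε * (μ ^ 2 / ((2 : ℕ).factorial : ℕ) * SS N V)) :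
    ∑ n ∈ range N, V n ^ 2 * (((SV H P n).card : ℝ) - μ) ^ 2 ≤
      (3 * ε * μ ^ 2 + (1 + ε) * μ) * SS N V := by
  have e : ∑ n ∈ range N, V n ^ 2 * (((SV H P n).card : ℝ) - μ) ^ 2 =
      2 * Bin N H 2 V P + Bin N H 1 V P - 2 * μ * Bin N H 1 V P + μ ^ 2 * SS N V := by
    unfold Bin SS
    rw [mul_sum, mul_sum, mul_sum, ← sum_add_distrib, ← sum_sub_distrib, ← sum_add_distrib]
    refine sum_congr rfl fun n _ => ?_
    rw [Nat.cast_choose_two, Nat.choose_one_right]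
    ring
  rw [e]
  have h1' := abs_le.1 h1
  have h2' := abs_le.1 h2
  norm_num [Nat.factorial] at h1' h2'
  have h3 : 2 * μ * ((1 - ε) * (μ * SS N V)) ≤ 2 * μ * Bin N H 1 V P :=
    mul_le_mul_of_nonneg_left (by linarith [h1'.1]) (by linarith)
  have h4 : 2 * Bin N H 2 V P ≤ (1 + ε) * (μ ^ 2 * SS N V) := by linarith [h2'.2]
  have h5 : Bin N H 1 V P ≤ (1 + ε) * (μ * SS N V) := by linarith [h1'.2]
  have e2 : (3 * ε * μ ^ 2 + (1 + ε) * μ) * SS N V = (1 + ε) * (μ ^ 2 * SS N V) +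
      (1 + ε) * (μ * SS N V) - 2 * μ * ((1 - ε) * (μ * SS N V)) + μ ^ 2 * SS N V := by ring
  rw [e2]
  linarith

/-- **The law of large numbers.** -/
theorem lln (δ ε : ℝ) (hδ : 0 < δ) (hε : 0 < ε) : ∃ C : ℝ, 0 < C ∧
    ∀ (R : ℝ) (H P : Finset ℕ) (W N : ℕ) (V : ℕ → ℝ), 2 ≤ R → C * Real.log R ≤ H.card →
      Ok H P W N → IsWeight W N R V → C ≤ mu H P →
      ∑ n ∈ range N, V n ^ 2 * (if δ * mu H P < |((SV H P n).card : ℝ) - mu H P| then 1 else 0) ≤
        ε * SS N V := by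
  set ε' : ℝ := min 1 (ε * δ ^ 2 / 6) with hε'
  have hε'0 : 0 < ε' := lt_min one_pos (by positivity)
  have hε'1 : ε' ≤ 1 := min_le_left _ _
  have hε'2 : ε' ≤ ε * δ ^ 2 / 6 := min_le_right _ _
  obtain ⟨C, hC, HC⟩ := moments_upto 2 ε' hε'0
  refine ⟨max C (4 / (ε * δ ^ 2)), lt_of_lt_of_le hC (le_max_left _ _),
    fun R H P W N V hR hH hok hV hμ => ?_⟩
  have hlR : 0 ≤ Real.log R := Real.log_nonneg (by linarith)
  have hm := HC R H P W N V hR ((mul_le_mul_of_nonneg_right (le_max_left _ _) hlR).trans hH) hok hV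
  have hμ1 : 4 / (ε * δ ^ 2) ≤ mu H P := (le_max_right _ _).trans hμ
  have hμ0 : 0 < mu H P := lt_of_lt_of_le (by positivity) hμ1
  set μ : ℝ := mu H P with hμd
  have hv := var_le hμ0.le (hm 1 (by norm_num)) (hm 2 le_rfl)
  have hSS := SS_nonneg N V
  have h1 : (δ * μ) ^ 2 * ∑ n ∈ range N, V n ^ 2 *
      (if δ * μ < |((SV H P n).card : ℝ) - μ| then 1 else 0) ≤
      ∑ n ∈ range N, V n ^ 2 * (((SV H P n).card : ℝ) - μ) ^ 2 := by
    rw [mul_sum]
    refine sum_le_sum fun n _ => ?_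
    split_ifs with h2
    · have h3 : (δ * μ) ^ 2 ≤ (((SV H P n).card : ℝ) - μ) ^ 2 := by
        rw [← sq_abs (((SV H P n).card : ℝ) - μ)]
        exact pow_le_pow_left₀ (by positivity) h2.le 2
      have := mul_le_mul_of_nonneg_left h3 (sq_nonneg (V n))
      linarith
    · rw [mul_zero, mul_zero]
      positivity
  have h2 : 3 * ε' * μ ^ 2 + (1 + ε') * μ ≤ (δ * μ) ^ 2 * ε := by
    have h3 : 3 * ε' * μ ^ 2 ≤ ε * δ ^ 2 / 2 * μ ^ 2 :=
      mul_le_mul_of_nonneg_right (by linarith) (sq_nonneg μ)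
    have h4 : (1 + ε') * μ ≤ 2 * μ := mul_le_mul_of_nonneg_right (by linarith) hμ0.le
    have h5 : 4 ≤ ε * δ ^ 2 * μ := by
      rw [div_le_iff₀ (by positivity)] at hμ1
      linarith
    have h6 : 2 * μ ≤ ε * δ ^ 2 / 2 * μ ^ 2 := by nlinarith
    calc _ ≤ ε * δ ^ 2 / 2 * μ ^ 2 + ε * δ ^ 2 / 2 * μ ^ 2 := by linarith
      _ = _ := by ring
  have h3 := mul_le_mul_of_nonneg_right h2 hSS
  have h4 : (δ * μ) ^ 2 * ∑ n ∈ range N, V n ^ 2 *
      (if δ * μ < |((SV H P n).card : ℝ) - μ| then 1 else 0) ≤ (δ * μ) ^ 2 * (ε * SS N V) := by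
    linarith
  exact le_of_mul_le_mul_left h4 (by positivity)

end Pool.Agent.Y830.SQ
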