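import Pool.Agent.Y830.SQ.Conv

/-!
The moments in the form `μ ^ r / r!`.
-/

set_option autoImplicit false

namespace Pool.Agent.Y830.SQ

open Finset
open Pool.Agent.Y835.SB

/-- the expected number of surviving sites -/
noncomputable def mu (H P : Finset ℕ) : ℝ := H.card * ∏ p ∈ P, (1 - 1 / (p : ℝ))

theorem mu_eq (H P : Finset ℕ) : mu H P = H.card * DD 1 P := by
  unfold mu DD
  rw [Nat.cast_one]

theorem choose_up (k r : ℕ) : ((k.choose r : ℕ) : ℝ) ≤ (k : ℝ) ^ r / (r.factorial : ℕ) := by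
  have hr : (0 : ℝ) < (r.factorial : ℕ) := by exact_mod_cast r.factorial_pos
  rw [le_div_iff₀ hr]
  have h1 := Nat.descFactorial_le_pow k r
  rw [Nat.descFactorial_eq_factorial_mul_choose, mul_comm] at h1
  exact_mod_cast h1

theorem choose_low {k r : ℕ} (hk : 0 < k) (hkr : r ≤ k) :
    (1 - (r : ℝ) ^ 2 / k) * ((k : ℝ) ^ r / (r.factorial : ℕ)) ≤ ((k.choose r : ℕ) : ℝ) := by
  have hr : (0 : ℝ) < (r.factorial : ℕ) := by exact_mod_cast r.factorial_pos
  have hk0 : (0 : ℝ) < k := by exact_mod_cast hk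
  have hkr' : (r : ℝ) ≤ k := by exact_mod_cast hkr
  rw [← mul_div_assoc, div_le_iff₀ hr]
  have h1 := Nat.pow_sub_le_descFactorial k r
  rw [Nat.descFactorial_eq_factorial_mul_choose, mul_comm] at h1
  have h2 : (((k + 1 - r : ℕ) : ℝ)) ^ r ≤ ((k.choose r : ℕ) : ℝ) * (r.factorial : ℕ) := by
    exact_mod_cast h1
  refine le_trans ?_ h2
  rw [Nat.cast_sub (by omega)]
  push_cast
  have h3 : (k : ℝ) * (1 - r / k) ≤ (k : ℝ) + 1 - r := by
    have : (k : ℝ) * (1 - r / k) = k - r := by field_simp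
    linarith
  have h4 : 0 ≤ 1 - (r : ℝ) / k := by
    rw [sub_nonneg, div_le_one hk0]
    exact hkr'
  have h5 := pow_le_pow_left₀ (mul_nonneg hk0.le h4) h3 r
  refine le_trans ?_ h5
  rw [mul_pow, mul_comm]
  refine mul_le_mul_of_nonneg_left ?_ (by positivity)
  have h6 := one_add_mul_le_pow (a := -((r : ℝ) / k)) (by
    have : (r : ℝ) / k ≤ 1 := by rw [div_le_one hk0]; exact hkr'
    linarith) r
  refine le_trans (le_of_eq ?_) (h6.trans (le_of_eq ?_))
  · ring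
  · rw [← sub_eq_add_neg]

/-- **the moments of the number of surviving sites** -/
theorem moments (r : ℕ) (ε : ℝ) (hε : 0 < ε) : ∃ C : ℝ, 0 < C ∧
    ∀ (R : ℝ) (H P : Finset ℕ) (W N : ℕ) (V : ℕ → ℝ), 2 ≤ R → C * Real.log R ≤ H.card →
      Ok H P W N → IsWeight W N R V →
      |Bin N H r V P - mu H P ^ r / (r.factorial : ℕ) * SS N V| ≤
        ε * (mu H P ^ r / (r.factorial : ℕ) * SS N V) := by
  obtain ⟨C₁, hC₁, H₁⟩ := PP_all r (ε / 2) (by positivity)
  have hl2 : 0 < Real.log 2 := Real.log_pos (by norm_num)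
  refine ⟨max C₁ ((2 * r + 3 + 2 * (r : ℝ) ^ 2 + 6 * (r : ℝ) ^ 2 / ε) / Real.log 2), lt_of_lt_of_le hC₁ (le_max_left _ _),
    fun R H P W N V hR hH hok hV => ?_⟩
  set k : ℕ := H.card with hk
  have hlR : Real.log 2 ≤ Real.log R := Real.log_le_log (by norm_num) hR
  have hlR0 : 0 < Real.log R := by linarith
  have h1 := H₁ R H P W N V hR
    (le_trans (mul_le_mul_of_nonneg_right (le_max_left _ _) hlR0.le) hH) hok hV
  have hkbig : 2 * r + 3 + 2 * (r : ℝ) ^ 2 + 6 * (r : ℝ) ^ 2 / ε ≤ k := by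
    have h2 : 2 * r + 3 + 2 * (r : ℝ) ^ 2 + 6 * (r : ℝ) ^ 2 / ε =
        (2 * r + 3 + 2 * (r : ℝ) ^ 2 + 6 * (r : ℝ) ^ 2 / ε) / Real.log 2 * Real.log 2 := by
      field_simp
    rw [h2]
    refine le_trans ?_ hH
    refine mul_le_mul (le_max_right _ _) hlR hl2.le ?_
    exact le_trans (by positivity) (le_max_right _ _)
  have hr0 : (0 : ℝ) ≤ r := Nat.cast_nonneg r
  have hq0 : 0 ≤ 6 * (r : ℝ) ^ 2 / ε := by positivity
  have hr2 : (0 : ℝ) ≤ (r : ℝ) ^ 2 := by positivity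
  have hk2 : 2 * r + 3 ≤ k := by
    have : (2 : ℝ) * r + 3 ≤ k := by linarith
    exact_mod_cast this
  have hk0 : (0 : ℝ) < k := by exact_mod_cast (by omega : 0 < k)
  have hpk : ∀ p ∈ P, k ≤ p := fun p hp => hok.card_le hp
  -- comparison
  have hrf : (0 : ℝ) < (r.factorial : ℕ) := by exact_mod_cast r.factorial_pos
  set T : ℝ := mu H P ^ r / (r.factorial : ℕ) with hT
  have hTeq : T = (k : ℝ) ^ r / (r.factorial : ℕ) * DD 1 P ^ r := by
    rw [hT, mu_eq, mul_pow]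
    ring
  have hDD0 : 0 ≤ DD r P := (DD_pos fun p hp => by have := hpk p hp; omega).le
  have hDD1 : 0 ≤ DD 1 P ^ r := pow_nonneg (DD_pos fun p hp => by have := hpk p hp; omega).le r
  have hup : ((k.choose r : ℕ) : ℝ) * DD r P ≤ T := by
    rw [hTeq]
    exact mul_le_mul (choose_up k r) (DD_le_pow r P fun p hp => by have := hpk p hp; omega) hDD0
      (by positivity)
  have hsmall : 3 * (r : ℝ) ^ 2 / k ≤ ε / 2 := by
    rw [div_le_iff₀ hk0]
    have h2 : 6 * (r : ℝ) ^ 2 / ε ≤ k := by linarith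
    rw [div_le_iff₀ hε] at h2
    linarith
  have hT0 : 0 ≤ T := by rw [hTeq]; positivity
  have hlow : (1 - ε / 2) * T ≤ ((k.choose r : ℕ) : ℝ) * DD r P := by
    have h2 := choose_low (k := k) (r := r) (by omega) (by omega)
    have h3 := DD_ge_pow (r := r) (k := k) (by omega) (by omega) P hpk
    have h4 : 0 ≤ 1 - 2 * (r : ℝ) ^ 2 / k := by
      rw [sub_nonneg, div_le_one hk0]
      linarith
    have h5 : 0 ≤ 1 - (r : ℝ) ^ 2 / k := by
      rw [sub_nonneg, div_le_one hk0]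
      linarith
    have hX : 0 ≤ (k : ℝ) ^ r / (r.factorial : ℕ) := by positivity
    have h6 := mul_le_mul h2 h3 (mul_nonneg h4 hDD1) (Nat.cast_nonneg _)
    refine le_trans ?_ h6
    rw [hTeq]
    have h7 : (1 - (r : ℝ) ^ 2 / k) * ((k : ℝ) ^ r / (r.factorial : ℕ)) *
        ((1 - 2 * (r : ℝ) ^ 2 / k) * DD 1 P ^ r) =
        ((1 - (r : ℝ) ^ 2 / k) * (1 - 2 * (r : ℝ) ^ 2 / k)) *
        ((k : ℝ) ^ r / (r.factorial : ℕ) * DD 1 P ^ r) := by ring
    rw [h7]
    refine mul_le_mul_of_nonneg_right ?_ (mul_nonneg hX hDD1)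
    have h8 : 0 ≤ (r : ℝ) ^ 2 / k := by positivity
    have e1 : 2 * (r : ℝ) ^ 2 / k = 2 * ((r : ℝ) ^ 2 / k) := by ring
    have e2 : 3 * (r : ℝ) ^ 2 / k = 3 * ((r : ℝ) ^ 2 / k) := by ring
    rw [e2] at hsmall
    rw [e1]
    nlinarith
  have hSS := SS_nonneg N V
  have h2 : |((k.choose r : ℕ) : ℝ) * DD r P * SS N V - T * SS N V| ≤ ε / 2 * (T * SS N V) := by
    rw [abs_le]
    constructor
    · nlinarith
    · nlinarith
  have h3 : ε / 2 * (((k.choose r : ℕ) : ℝ) * DD r P * SS N V) ≤ ε / 2 * (T * SS N V) :=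
    mul_le_mul_of_nonneg_left (mul_le_mul_of_nonneg_right hup hSS) (by positivity)
  have h4 := abs_sub_le (Bin N H r V P) (((k.choose r : ℕ) : ℝ) * DD r P * SS N V) (T * SS N V)
  linarith

end Pool.Agent.Y830.SQ
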