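import Pool.Agent.Y830.SQ.Step

/-!
The recursion over the primes for the binomial moments.
-/

set_option autoImplicit false

namespace Pool.Agent.Y830.SQ

open Finset
open Pool.Agent.Y835.SB

theorem Bin_zero_fun (N : ℕ) (H : Finset ℕ) (r : ℕ) (Q : Finset ℕ) :
    Bin N H r (0 : ℕ → ℝ) Q = 0 := by
  unfold Bin
  refine sum_eq_zero fun n _ => ?_
  simp

/-- the step at a prime on which `F` does not depend -/
theorem Bin_step0 {N : ℕ} {M K : ℕ → ℕ} {F : ℕ → ℝ} (hF : Function.Periodic F N) (H : Finset ℕ)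
    {p : ℕ} {Q : Finset ℕ} (hpQ : p ∉ Q) (hD : Dat N M K (insert p Q))
    (hH : Set.InjOn (fun h => h % p) (H : Set ℕ)) (r : ℕ) (hFp : Function.Periodic F (M p)) :
    Bin N H (r + 1) F (insert p Q) = (1 - ((r + 1 : ℕ) / p)) * Bin N H (r + 1) F Q := by
  have hW : F - Av (M p) (K p) F = 0 := by
    rw [Av_of_per (hD.Kpos (mem_insert_self p Q)) hFp, sub_self]
  have hX := Bin_nonneg N H (r + 1) F Q
  set X := Bin N H (r + 1) F Q with hXd
  have hpp := hD.pr p (mem_insert_self p Q)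
  have hp0 : (0 : ℝ) < p := by exact_mod_cast hpp.pos
  set ρ : ℝ := ((r + 1 : ℕ) : ℝ) / p with hρ
  have hρ0 : 0 ≤ ρ := by positivity
  have hc : 0 < ρ * X + 1 := by positivity
  refine le_antisymm ?_ ?_
  · refine le_of_forall_pos_le_add fun ε hε => ?_
    have h1 := (Bin_step hF H hpQ hD hH r (η := ε / (ρ * X + 1)) (by positivity)).2
    rw [hW, Bin_zero_fun, mul_zero, add_zero] at h1
    refine h1.trans ?_
    have h2 : ε / (ρ * X + 1) * (ρ * X) ≤ ε := by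
      rw [div_mul_eq_mul_div, div_le_iff₀ hc]
      nlinarith
    nlinarith
  · refine le_of_forall_pos_le_add fun ε hε => ?_
    have h1 := (Bin_step hF H hpQ hD hH r (η := ε / (ρ * X + 1)) (by positivity)).1
    rw [hW, Bin_zero_fun, mul_zero, sub_zero] at h1
    have h2 : ε / (ρ * X + 1) * (ρ * X) ≤ ε := by
      rw [div_mul_eq_mul_div, div_le_iff₀ hc]
      nlinarith
    nlinarith

/-- the density of the integers at which `s` incongruent sites are hit by no prime of `Q` -/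
noncomputable def DD (s : ℕ) (Q : Finset ℕ) : ℝ := ∏ q ∈ Q, (1 - (s : ℝ) / q)

theorem DD_pos {s : ℕ} {Q : Finset ℕ} (hQ : ∀ q ∈ Q, 2 * s < q) : 0 < DD s Q := by
  unfold DD
  refine prod_pos fun q hq => ?_
  have h1 := hQ q hq
  have h2 : (2 : ℝ) * s < q := by exact_mod_cast h1
  have hs : (0 : ℝ) ≤ s := Nat.cast_nonneg s
  have hq0 : (0 : ℝ) < q := by linarith
  rw [sub_pos, div_lt_one hq0]
  linarith

theorem alg_low {u η D A B ES X c Ep y X' : ℝ} (hu0 : 0 ≤ u) (hu2 : u ≤ 1 / 2) (hη0 : 0 ≤ η)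
    (hη1 : η ≤ 1) (hD : 0 ≤ D) (hA : 0 ≤ A) (hB : 0 ≤ B) (hES : 0 ≤ ES) (hX : 0 ≤ X) (hc : 0 ≤ c)
    (hEp : 0 ≤ Ep) (hy : y ≤ D * Ep) (h1 : (1 - (1 + η) * u) * X - c * y ≤ X')
    (ih : D * ((1 - A) * B - 2 * c * ES) ≤ X) :
    (1 - u) * D * ((1 - (2 * η * u + A)) * B - 2 * c * (Ep + ES)) ≤ X' := by
  have hηu : 0 ≤ η * u := mul_nonneg hη0 hu0
  have hηu1 : 2 * (η * u) ≤ 1 := by nlinarith
  have hu1 : 0 ≤ 1 - u := by linarith
  have h3 : c * y ≤ (1 - u) * (2 * (c * (D * Ep))) := by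
    have h4 : c * y ≤ c * (D * Ep) := mul_le_mul_of_nonneg_left hy hc
    have h5 : 0 ≤ c * (D * Ep) := mul_nonneg hc (mul_nonneg hD hEp)
    nlinarith
  have h4 : (1 - u) * (1 - 2 * (η * u)) ≤ 1 - (1 + η) * u := by nlinarith
  have h5 := mul_le_mul_of_nonneg_right h4 hX
  have hAB : 0 ≤ A * B := mul_nonneg hA hB
  have hcE : 0 ≤ c * ES := mul_nonneg hc hES
  set L : ℝ := (1 - A) * B - 2 * c * ES with hL
  have hLB : L ≤ B := by
    have : L = B - A * B - 2 * (c * ES) := by rw [hL]; ring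
    linarith
  have h6 : D * (L - 2 * (η * u) * B) ≤ (1 - 2 * (η * u)) * X := by
    have h7 : (1 - 2 * (η * u)) * (D * L) ≤ (1 - 2 * (η * u)) * X :=
      mul_le_mul_of_nonneg_left ih (by linarith)
    have h8 : 0 ≤ D * (2 * (η * u)) * (B - L) :=
      mul_nonneg (mul_nonneg hD (by linarith)) (by linarith)
    nlinarith
  have h7 := mul_le_mul_of_nonneg_left h6 hu1
  calc (1 - u) * D * ((1 - (2 * η * u + A)) * B - 2 * c * (Ep + ES))
      = (1 - u) * (D * (L - 2 * (η * u) * B)) - (1 - u) * (2 * (c * (D * Ep))) := by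
        rw [hL]; ring
    _ ≤ (1 - u) * ((1 - 2 * (η * u)) * X) - c * y := by linarith
    _ = (1 - u) * (1 - 2 * (η * u)) * X - c * y := by ring
    _ ≤ (1 - (1 + η) * u) * X - c * y := by linarith
    _ ≤ X' := h1

theorem alg_up {u η D P B ES X c Ep y X' : ℝ} (hu0 : 0 ≤ u) (hu2 : u ≤ 1 / 2) (hη0 : 0 ≤ η)
    (hD : 0 ≤ D) (hP : 1 ≤ P) (hX : 0 ≤ X) (hc : 0 ≤ c)
    (hEp : 0 ≤ Ep) (hy : y ≤ D * Ep) (h1 : X' ≤ (1 - (1 - η) * u) * X + c * y)
    (ih : X ≤ D * (P * (B + 2 * c * ES))) :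
    X' ≤ (1 - u) * D * ((1 + 2 * η * u) * P * (B + 2 * c * (Ep + ES))) := by
  have hηu : 0 ≤ η * u := mul_nonneg hη0 hu0
  have hu1 : 0 ≤ 1 - u := by linarith
  have h5 : 0 ≤ c * (D * Ep) := mul_nonneg hc (mul_nonneg hD hEp)
  have h3 : c * y ≤ (1 - u) * (2 * (c * (D * Ep))) := by
    have h4 : c * y ≤ c * (D * Ep) := mul_le_mul_of_nonneg_left hy hc
    nlinarith
  have h4 : 1 - (1 - η) * u ≤ (1 - u) * (1 + 2 * (η * u)) := by nlinarith
  have h5' := mul_le_mul_of_nonneg_right h4 hX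
  have h6 : (1 - u) * (1 + 2 * (η * u)) * X ≤
      (1 - u) * (1 + 2 * (η * u)) * (D * (P * (B + 2 * c * ES))) :=
    mul_le_mul_of_nonneg_left ih (mul_nonneg hu1 (by linarith))
  have h7 : 1 ≤ (1 + 2 * (η * u)) * P := by nlinarith
  have h8 : (1 - u) * (2 * (c * (D * Ep))) ≤
      (1 + 2 * (η * u)) * P * ((1 - u) * (2 * (c * (D * Ep)))) :=
    le_mul_of_one_le_left (mul_nonneg hu1 (by linarith)) h7
  calc X' ≤ (1 - (1 - η) * u) * X + c * y := h1
    _ ≤ (1 - u) * (1 + 2 * (η * u)) * (D * (P * (B + 2 * c * ES))) +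
      (1 + 2 * (η * u)) * P * ((1 - u) * (2 * (c * (D * Ep)))) := by linarith
    _ = _ := by ring

/-- the recursion -/
theorem recur {N : ℕ} {M K : ℕ → ℕ} {F : ℕ → ℝ} (hF : Function.Periodic F N) (H : Finset ℕ)
    (r : ℕ) {η : ℝ} (hη : 0 < η) (hη1 : η ≤ 1) (R : ℝ) (E : ℕ → ℝ) (hE0 : ∀ q, 0 ≤ E q)
    (Q : Finset ℕ) : Dat N M K Q → (∀ p ∈ Q, 2 * (r + 1) < p) →
    (∀ p ∈ Q, Set.InjOn (fun h => h % p) (H : Set ℕ)) →
    (∀ p ∈ Q, R < (p : ℝ) → Function.Periodic F (M p)) →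
    (∀ p ∈ Q, (p : ℝ) ≤ R → Bin N H r (F - Av (M p) (K p) F) (Q.filter (fun q => q < p)) ≤
      DD (r + 1) (Q.filter (fun q => q < p)) * E p) →
    DD (r + 1) Q * ((1 - ∑ q ∈ Q.filter (fun q : ℕ => (q : ℝ) ≤ R),
        2 * η * (r + 1 : ℕ) / q) * Bin N H (r + 1) F ∅ -
        2 * (1 + 1 / η) * ∑ q ∈ Q.filter (fun q : ℕ => (q : ℝ) ≤ R), E q) ≤
        Bin N H (r + 1) F Q ∧
      Bin N H (r + 1) F Q ≤ DD (r + 1) Q *
        ((∏ q ∈ Q.filter (fun q : ℕ => (q : ℝ) ≤ R), (1 + 2 * η * (r + 1 : ℕ) / q)) *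
        (Bin N H (r + 1) F ∅ +
          2 * (1 + 1 / η) * ∑ q ∈ Q.filter (fun q : ℕ => (q : ℝ) ≤ R), E q)) := by
  classical
  induction Q using Finset.induction_on_max with
  | empty =>
    intro _ _ _ _ _
    simp [DD]
  | insert p Q hmax ih =>
    intro hD h2p hH hRp hEp
    have hpQ : p ∉ Q := fun h1 => lt_irrefl _ (hmax p h1)
    have hsub : Q ⊆ insert p Q := subset_insert p Q
    have hfil : ∀ q ∈ Q, (insert p Q).filter (fun r => r < q) = Q.filter (fun r => r < q) := by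
      intro q hq
      rw [filter_insert, if_neg (by have := hmax q hq; omega)]
    have hfilp : (insert p Q).filter (fun r => r < p) = Q := by
      rw [filter_insert, if_neg (lt_irrefl _), filter_true_of_mem hmax]
    obtain ⟨ih1, ih2⟩ := ih (hD.sub hsub) (fun q hq => h2p q (hsub hq))
      (fun q hq => hH q (hsub hq)) (fun q hq => hRp q (hsub hq)) (fun q hq hqR => by
        have := hEp q (hsub hq) hqR
        rwa [hfil q hq] at this)
    have hpm := mem_insert_self p Q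
    have h2pp := h2p p hpm
    have hs2 : (2 : ℝ) * (r + 1 : ℕ) < p := by exact_mod_cast h2pp
    set s : ℝ := ((r + 1 : ℕ) : ℝ) with hs
    have hs1 : 1 ≤ s := by
      rw [hs]
      exact_mod_cast (by omega : 1 ≤ r + 1)
    have hp0 : (0 : ℝ) < p := by linarith
    set u : ℝ := s / p with hu
    have hu0 : 0 ≤ u := by positivity
    have hu2 : u ≤ 1 / 2 := by
      rw [hu, div_le_div_iff₀ hp0 two_pos]
      linarith
    have hDD0 : 0 < DD (r + 1) Q := DD_pos fun q hq => h2p q (hsub hq)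
    have hDDi : DD (r + 1) (insert p Q) = (1 - u) * DD (r + 1) Q := by
      unfold DD
      rw [prod_insert hpQ]
    set D : ℝ := DD (r + 1) Q with hDd
    set A : ℝ := ∑ q ∈ Q.filter (fun q : ℕ => (q : ℝ) ≤ R), 2 * η * s / q with hA
    set P : ℝ := ∏ q ∈ Q.filter (fun q : ℕ => (q : ℝ) ≤ R), (1 + 2 * η * s / q) with hP
    set ES : ℝ := ∑ q ∈ Q.filter (fun q : ℕ => (q : ℝ) ≤ R), E q with hES
    set X : ℝ := Bin N H (r + 1) F Q with hX
    set B : ℝ := Bin N H (r + 1) F ∅ with hB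
    have hX0 : 0 ≤ X := Bin_nonneg _ _ _ _ _
    have hB0 : 0 ≤ B := Bin_nonneg _ _ _ _ _
    have hA0 : 0 ≤ A := sum_nonneg fun _ _ => by positivity
    have hES0 : 0 ≤ ES := sum_nonneg fun q _ => hE0 q
    have hP1 : 1 ≤ P := by
      have h1 : ∀ q ∈ Q.filter (fun q : ℕ => (q : ℝ) ≤ R), (1 : ℝ) ≤ 1 + 2 * η * s / q :=
        fun q _ => by
          have : 0 ≤ 2 * η * s / (q : ℝ) := by positivity
          linarith
      calc (1 : ℝ) = ∏ _q ∈ Q.filter (fun q : ℕ => (q : ℝ) ≤ R), (1 : ℝ) := by rw [prod_const_one]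
        _ ≤ P := prod_le_prod (fun _ _ => zero_le_one) h1
    have hc0 : 0 < 1 + 1 / η := by positivity
    set c : ℝ := 1 + 1 / η with hc
    rw [hDDi]
    by_cases hR : (p : ℝ) ≤ R
    · have hnm : p ∉ Q.filter (fun q : ℕ => (q : ℝ) ≤ R) := fun h1 => hpQ (mem_filter.1 h1).1
      rw [filter_insert, if_pos hR, sum_insert hnm, sum_insert hnm, prod_insert hnm, ← hA, ← hES,
        ← hP]
      obtain ⟨h1, h2⟩ := Bin_step hF H hpQ hD (hH p hpm) r hη
      have hE := hEp p hpm hR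
      rw [hfilp] at hE
      set y : ℝ := Bin N H r (F - Av (M p) (K p) F) Q with hy
      set X' : ℝ := Bin N H (r + 1) F (insert p Q) with hX'
      have he : 2 * η * s / (p : ℝ) = 2 * η * u := by rw [hu]; ring
      rw [he]
      exact ⟨alg_low hu0 hu2 hη.le hη1 hDD0.le hA0 hB0 hES0 hX0 hc0.le (hE0 p) hE h1 ih1,
        alg_up hu0 hu2 hη.le hDD0.le hP1 hX0 hc0.le (hE0 p) hE h2 ih2⟩
    · rw [filter_insert, if_neg hR, ← hA, ← hES, ← hP,
        Bin_step0 hF H hpQ hD (hH p hpm) r (hRp p hpm (not_le.1 hR))]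
      have hu1 : 0 ≤ 1 - u := by linarith
      constructor
      · have := mul_le_mul_of_nonneg_left ih1 hu1
        calc _ = _ := ?_
          _ ≤ _ := this
        ring
      · have := mul_le_mul_of_nonneg_left ih2 hu1
        calc _ ≤ _ := this
          _ = _ := ?_
        ring

end Pool.Agent.Y830.SQ
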