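import Pool.Agent.Y830.SQ.Fib

/-!
One prime: the step for the binomial moments of the number of surviving sites.
-/

set_option autoImplicit false

namespace Pool.Agent.Y830.SQ

open Finset
open Pool.Agent.Y835.SB

open Classical in
/-- one step for one set `T` of sites -/
theorem stepT {N M K p k : ℕ} (hp : p.Prime) (hN : M * K = N) (hK : K = p ^ k) (hk : 1 ≤ k)
    (hM : ¬ p ∣ M) (T : Finset ℕ) (hT : Set.InjOn (fun h => h % p) (T : Set ℕ))
    {F U : ℕ → ℝ} (hF : Function.Periodic F N) (hU : Function.Periodic U M)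
    (hU0 : ∀ n, 0 ≤ U n) {η : ℝ} (hη : 0 < η) :
    (1 - (1 + η) * (T.card / p)) * ∑ n ∈ range N, F n ^ 2 * U n -
        (1 + 1 / η) * ∑ n ∈ range N,
          (if ∃ h ∈ T, p ∣ n + h then (F n - Av M K F n) ^ 2 else 0) * U n ≤
        ∑ n ∈ range N, (if ∃ h ∈ T, p ∣ n + h then 0 else F n ^ 2) * U n ∧
      ∑ n ∈ range N, (if ∃ h ∈ T, p ∣ n + h then 0 else F n ^ 2) * U n ≤
        (1 - (1 - η) * (T.card / p)) * ∑ n ∈ range N, F n ^ 2 * U n +
        (T.card / p) * ∑ n ∈ range N, (F n - Av M K F n) ^ 2 * U n +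
        (1 / η) * ∑ n ∈ range N,
          (if ∃ h ∈ T, p ∣ n + h then (F n - Av M K F n) ^ 2 else 0) * U n := by
  have hK0 : 0 < K := by rw [hK]; exact pow_pos hp.pos k
  have hKr : (0 : ℝ) < K := by exact_mod_cast hK0
  have hpK : p ∣ K := by rw [hK]; exact dvd_pow_self p (by omega)
  have hpN : p ∣ N := by rw [← hN]; exact hpK.mul_left M
  have hUN : Function.Periodic U N := by
    intro n
    rw [← hN, mul_comm]
    have := hU.nat_mul K n
    rwa [Nat.cast_id] at this
  have hdv : ∀ n : ℕ, (∃ h ∈ T, p ∣ n + N + h) ↔ (∃ h ∈ T, p ∣ n + h) := by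
    intro n
    refine exists_congr fun h => and_congr_right fun _ => ?_
    have e : n + N + h = n + h + N := by ring
    rw [e]
    exact (Nat.dvd_add_iff_left hpN).symm
  have hA : Function.Periodic (Av M K F) M := Av_perM (hN ▸ hF)
  have hAN : Function.Periodic (Av M K F) N := Av_per hF
  have hAt : ∀ n t, Av M K F (n + M * t) = Av M K F n := by
    intro n t
    have := hA.nat_mul t n
    rwa [Nat.cast_id, mul_comm] at this
  have hex : ∀ n t : ℕ, (∃ h ∈ T, p ∣ n + M * t + h) ↔ (∃ h ∈ T, p ∣ n + h + M * t) := by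
    intro n t
    refine exists_congr fun h => and_congr_right fun _ => ?_
    rw [show n + M * t + h = n + h + M * t by ring]
  have e1 : ∑ n ∈ range N, F n ^ 2 * U n =
      ∑ n ∈ range N, (∑ t ∈ range K, F (n + M * t) ^ 2) / K * U n := by
    rw [← sum_Av (M := M) hK0 (F := fun n => F n ^ 2 * U n) (fun n => by simp only [hF n, hUN n])]
    refine sum_congr rfl fun n _ => ?_
    rw [Av_mul hU]
    rfl
  have e2 : ∑ n ∈ range N, (if ∃ h ∈ T, p ∣ n + h then (F n - Av M K F n) ^ 2 else 0) * U n =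
      ∑ n ∈ range N, (∑ t ∈ (range K).filter (fun t => ∃ h ∈ T, p ∣ n + h + M * t),
        (F (n + M * t) - (∑ t ∈ range K, F (n + M * t)) / K) ^ 2) / K * U n := by
    rw [← sum_Av (M := M) hK0
      (F := fun n => (if ∃ h ∈ T, p ∣ n + h then (F n - Av M K F n) ^ 2 else 0) * U n)
      (fun n => by simp only [hF n, hUN n, hAN n, hdv n])]
    refine sum_congr rfl fun n _ => ?_
    rw [Av_mul hU]
    congr 1
    unfold Av
    congr 1
    rw [sum_filter]
    refine sum_congr rfl fun t _ => ?_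
    have h1 := hAt n t
    unfold Av at h1
    beta_reduce
    rw [h1]
    exact if_congr (hex n t) rfl rfl
  have e3 : ∑ n ∈ range N, (if ∃ h ∈ T, p ∣ n + h then 0 else F n ^ 2) * U n =
      ∑ n ∈ range N, (∑ t ∈ range K \ (range K).filter (fun t => ∃ h ∈ T, p ∣ n + h + M * t),
        F (n + M * t) ^ 2) / K * U n := by
    rw [← sum_Av (M := M) hK0
      (F := fun n => (if ∃ h ∈ T, p ∣ n + h then 0 else F n ^ 2) * U n)
      (fun n => by simp only [hF n, hUN n, hdv n])]
    refine sum_congr rfl fun n _ => ?_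
    rw [Av_mul hU]
    congr 1
    unfold Av
    congr 1
    rw [← filter_not, sum_filter]
    refine sum_congr rfl fun t _ => ?_
    beta_reduce
    rw [if_congr (hex n t) rfl rfl]
    by_cases h1 : ∃ h ∈ T, p ∣ n + h + M * t
    · rw [if_pos h1, if_neg (not_not.2 h1)]
    · rw [if_neg h1, if_pos h1]
  have e4 : ∑ n ∈ range N, (F n - Av M K F n) ^ 2 * U n =
      ∑ n ∈ range N, (∑ t ∈ range K,
        (F (n + M * t) - (∑ t ∈ range K, F (n + M * t)) / K) ^ 2) / K * U n := by
    rw [← sum_Av (M := M) hK0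
      (F := fun n => (F n - Av M K F n) ^ 2 * U n)
      (fun n => by simp only [hF n, hUN n, hAN n])]
    refine sum_congr rfl fun n _ => ?_
    rw [Av_mul hU]
    congr 1
    unfold Av
    congr 1
    refine sum_congr rfl fun t _ => ?_
    have h1 := hAt n t
    unfold Av at h1
    beta_reduce
    rw [h1]
  have hfib : ∀ n, _ := fun n => fib2 (r := T.card) hp.pos (fun t => F (n + M * t)) _
    (filter_subset _ _) (fib_cardT hp hK hk hM T hT n) hK0 hη
  rw [e1, e2, e3, e4, mul_sum, mul_sum]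
  constructor
  · rw [← sum_sub_distrib]
    refine sum_le_sum fun n _ => ?_
    have h2 := mul_le_mul_of_nonneg_right (hfib n).1 (div_nonneg (hU0 n) hKr.le)
    calc _ = _ := ?_
      _ ≤ _ := h2
      _ = _ := ?_
    · ring
    · ring
  · rw [mul_sum, mul_sum, mul_sum, ← sum_add_distrib, ← sum_add_distrib]
    refine sum_le_sum fun n _ => ?_
    have h2 := mul_le_mul_of_nonneg_right (hfib n).2 (div_nonneg (hU0 n) hKr.le)
    calc _ = _ := ?_
      _ ≤ _ := h2
      _ = _ := ?_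
    · ring
    · ring

open Classical in
/-- the sites of `H` hit by no prime of `Q` -/
noncomputable def SV (H Q : Finset ℕ) (n : ℕ) : Finset ℕ :=
  H.filter (fun h => ∀ q ∈ Q, ¬ q ∣ n + h)

open Classical in
/-- the indicator that no prime of `Q` hits a site of `T` -/
noncomputable def UU (T Q : Finset ℕ) (n : ℕ) : ℝ :=
  if ∀ h ∈ T, ∀ q ∈ Q, ¬ q ∣ n + h then 1 else 0

/-- `∑ F(n)^2 binom(S(n), r)` -/
noncomputable def Bin (N : ℕ) (H : Finset ℕ) (r : ℕ) (F : ℕ → ℝ) (Q : Finset ℕ) : ℝ :=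
  ∑ n ∈ range N, F n ^ 2 * (((SV H Q n).card.choose r : ℕ) : ℝ)

theorem Bin_nonneg (N : ℕ) (H : Finset ℕ) (r : ℕ) (F : ℕ → ℝ) (Q : Finset ℕ) :
    0 ≤ Bin N H r F Q :=
  sum_nonneg fun _ _ => mul_nonneg (sq_nonneg _) (Nat.cast_nonneg _)

theorem UU_nonneg (T Q : Finset ℕ) (n : ℕ) : 0 ≤ UU T Q n := by
  unfold UU; split_ifs <;> norm_num

theorem subset_SV {H Q T : Finset ℕ} {n : ℕ} (hT : T ⊆ H) :
    T ⊆ SV H Q n ↔ ∀ h ∈ T, ∀ q ∈ Q, ¬ q ∣ n + h := by
  constructor
  · intro h1 h hh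
    exact (mem_filter.1 (h1 hh)).2
  · intro h1 h hh
    exact mem_filter.2 ⟨hT hh, h1 h hh⟩

open Classical in
theorem filter_powersetCard (H Q : Finset ℕ) (r n : ℕ) :
    (powersetCard r H).filter (fun T => ∀ h ∈ T, ∀ q ∈ Q, ¬ q ∣ n + h) =
      powersetCard r (SV H Q n) := by
  ext T
  rw [mem_filter, mem_powersetCard, mem_powersetCard]
  constructor
  · rintro ⟨⟨h1, h2⟩, h3⟩
    exact ⟨(subset_SV h1).2 h3, h2⟩
  · rintro ⟨h1, h2⟩
    have h4 : T ⊆ H := h1.trans (filter_subset _ _)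
    exact ⟨⟨h4, h2⟩, (subset_SV h4).1 h1⟩

theorem choose_eq (H Q : Finset ℕ) (r n : ℕ) :
    (((SV H Q n).card.choose r : ℕ) : ℝ) = ∑ T ∈ powersetCard r H, UU T Q n := by
  classical
  unfold UU
  rw [sum_boole, ← card_powersetCard, ← filter_powersetCard]

open Classical in
/-- the sets of sites in which some site is hit by `p` -/
theorem hit_count {H : Finset ℕ} {p : ℕ} (hH : Set.InjOn (fun h => h % p) (H : Set ℕ))
    (Q : Finset ℕ) (r n : ℕ) :
    ∑ T ∈ powersetCard (r + 1) H, (if ∃ h ∈ T, p ∣ n + h then UU T Q n else 0) ≤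
      (((SV H Q n).card.choose r : ℕ) : ℝ) := by
  have h1 : ∑ T ∈ powersetCard (r + 1) H, (if ∃ h ∈ T, p ∣ n + h then UU T Q n else 0) =
      (((powersetCard (r + 1) (SV H Q n)).filter (fun T => ∃ h ∈ T, p ∣ n + h)).card : ℝ) := by
    rw [← filter_powersetCard, filter_filter, ← sum_boole]
    refine sum_congr rfl fun T _ => ?_
    unfold UU
    by_cases h1 : ∃ h ∈ T, p ∣ n + h
    · rw [if_pos h1]
      refine if_congr ?_ rfl rfl
      exact ⟨fun h2 => ⟨h2, h1⟩, fun h2 => h2.1⟩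
    · rw [if_neg h1, if_neg (fun h2 => h1 h2.2)]
  rw [h1]
  by_cases hex : ∃ h₀ ∈ H, p ∣ n + h₀
  · obtain ⟨h₀, hh₀, hd₀⟩ := hex
    have huniq : ∀ h ∈ H, p ∣ n + h → h = h₀ := by
      intro h hh hd
      refine hH hh hh₀ ?_
      show h % p = h₀ % p
      have h2 : (n + h) ≡ (n + h₀) [MOD p] := by
        rw [Nat.ModEq, Nat.mod_eq_zero_of_dvd hd, Nat.mod_eq_zero_of_dvd hd₀]
      exact Nat.ModEq.add_left_cancel' _ h2
    have h2 : ((powersetCard (r + 1) (SV H Q n)).filter (fun T => ∃ h ∈ T, p ∣ n + h)).card ≤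
        (powersetCard r (SV H Q n)).card := by
      refine card_le_card_of_injOn (fun T => T.erase h₀) ?_ ?_
      · intro T hT
        rw [mem_coe, mem_filter, mem_powersetCard] at hT
        obtain ⟨⟨h3, h4⟩, h, h5, h6⟩ := hT
        have h7 : h₀ ∈ T := by
          rw [← huniq h ((filter_subset _ _) (h3 h5)) h6]
          exact h5
        rw [mem_coe, mem_powersetCard]
        refine ⟨(erase_subset _ _).trans h3, ?_⟩
        show (T.erase h₀).card = r
        rw [card_erase_of_mem h7, h4]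
        rfl
      · intro T hT T' hT' he
        have key : ∀ T'' : Finset ℕ, T'' ∈ (((powersetCard (r + 1) (SV H Q n)).filter
            (fun T => ∃ h ∈ T, p ∣ n + h) : Finset (Finset ℕ)) : Set (Finset ℕ)) → h₀ ∈ T'' := by
          intro T'' hT''
          rw [mem_coe, mem_filter, mem_powersetCard] at hT''
          obtain ⟨⟨h3, h4⟩, h, h5, h6⟩ := hT''
          rw [← huniq h ((filter_subset _ _) (h3 h5)) h6]
          exact h5
        have h3 : T.erase h₀ = T'.erase h₀ := he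
        rw [← insert_erase (key T hT), ← insert_erase (key T' hT'), h3]
    rw [card_powersetCard] at h2
    exact_mod_cast h2
  · have h2 : (powersetCard (r + 1) (SV H Q n)).filter (fun T => ∃ h ∈ T, p ∣ n + h) = ∅ := by
      rw [filter_eq_empty_iff]
      rintro T hT ⟨h, h3, h4⟩
      rw [mem_powersetCard] at hT
      exact hex ⟨h, (filter_subset _ _) (hT.1 h3), h4⟩
    rw [h2, card_empty, Nat.cast_zero]
    exact Nat.cast_nonneg _

open Classical in
theorem UU_insert (T Q : Finset ℕ) (p n : ℕ) :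
    UU T (insert p Q) n = if ∃ h ∈ T, p ∣ n + h then 0 else UU T Q n := by
  unfold UU
  by_cases h1 : ∃ h ∈ T, p ∣ n + h
  · rw [if_pos h1, if_neg]
    obtain ⟨h, hh, hd⟩ := h1
    exact fun h2 => h2 h hh p (mem_insert_self p Q) hd
  · rw [if_neg h1]
    refine if_congr ?_ rfl rfl
    constructor
    · intro h2 h hh q hq
      exact h2 h hh q (mem_insert_of_mem hq)
    · intro h2 h hh q hq
      rcases mem_insert.1 hq with h3 | h3
      · rw [h3]
        exact fun h4 => h1 ⟨h, hh, h4⟩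
      · exact h2 h hh q h3

theorem UU_per {M : ℕ} {Q : Finset ℕ} (hQ : ∀ q ∈ Q, q ∣ M) (T : Finset ℕ) :
    Function.Periodic (UU T Q) M := by
  intro n
  unfold UU
  refine if_congr ?_ rfl rfl
  refine forall₂_congr fun h _ => forall₂_congr fun q hq => not_congr ?_
  rw [show n + M + h = n + h + M by ring]
  exact (Nat.dvd_add_iff_left (hQ q hq)).symm

theorem Bin_eq (N : ℕ) (H : Finset ℕ) (r : ℕ) (F : ℕ → ℝ) (Q : Finset ℕ) :
    Bin N H r F Q = ∑ T ∈ powersetCard r H, ∑ n ∈ range N, F n ^ 2 * UU T Q n := by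
  unfold Bin
  rw [sum_comm]
  refine sum_congr rfl fun n _ => ?_
  rw [choose_eq, mul_sum]

/-- the step for the binomial moments -/
theorem Bin_step {N : ℕ} {M K : ℕ → ℕ} {F : ℕ → ℝ} (hF : Function.Periodic F N) (H : Finset ℕ)
    {p : ℕ} {Q : Finset ℕ} (hpQ : p ∉ Q) (hD : Dat N M K (insert p Q))
    (hH : Set.InjOn (fun h => h % p) (H : Set ℕ)) (r : ℕ) {η : ℝ} (hη : 0 < η) :
    (1 - (1 + η) * ((r + 1 : ℕ) / p)) * Bin N H (r + 1) F Q -
        (1 + 1 / η) * Bin N H r (F - Av (M p) (K p) F) Q ≤ Bin N H (r + 1) F (insert p Q) ∧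
      Bin N H (r + 1) F (insert p Q) ≤ (1 - (1 - η) * ((r + 1 : ℕ) / p)) * Bin N H (r + 1) F Q +
        (1 + 1 / η) * Bin N H r (F - Av (M p) (K p) F) Q := by
  classical
  have hpm := mem_insert_self p Q
  obtain ⟨k, hk, hK⟩ := hD.pow p hpm
  have hpp := hD.pr p hpm
  have hp0 : (0 : ℝ) < p := by exact_mod_cast hpp.pos
  have hQM : ∀ q ∈ Q, q ∣ M p := fun q hq =>
    hD.dvd p hpm q (mem_insert_of_mem hq) (fun h3 => hpQ (h3 ▸ hq))
  set W : ℕ → ℝ := F - Av (M p) (K p) F with hW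
  have hWn : ∀ n, (F n - Av (M p) (K p) F n) = W n := fun n => rfl
  -- the error terms
  have hY : ∑ T ∈ powersetCard (r + 1) H, ∑ n ∈ range N,
      (if ∃ h ∈ T, p ∣ n + h then (F n - Av (M p) (K p) F n) ^ 2 else 0) * UU T Q n ≤
      Bin N H r W Q := by
    rw [sum_comm]
    unfold Bin
    refine sum_le_sum fun n _ => ?_
    have h1 := mul_le_mul_of_nonneg_left (hit_count hH Q r n) (sq_nonneg (W n))
    refine le_trans (le_of_eq ?_) h1
    rw [mul_sum]
    refine sum_congr rfl fun T _ => ?_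
    rw [hWn]
    split_ifs <;> ring
  have hZ : ((r + 1 : ℕ) / p : ℝ) * ∑ T ∈ powersetCard (r + 1) H, ∑ n ∈ range N,
      (F n - Av (M p) (K p) F n) ^ 2 * UU T Q n ≤ Bin N H r W Q := by
    have h1 : ∑ T ∈ powersetCard (r + 1) H, ∑ n ∈ range N,
      (F n - Av (M p) (K p) F n) ^ 2 * UU T Q n = Bin N H (r + 1) W Q := by
      rw [Bin_eq]
      rfl
    rw [h1]
    unfold Bin
    rw [mul_sum]
    refine sum_le_sum fun n _ => ?_
    have hcard : (SV H Q n).card ≤ p := by
      refine (card_le_card (filter_subset _ _)).trans ?_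
      have h2 : H.card ≤ (range p).card := by
        refine card_le_card_of_injOn (fun h => h % p) ?_ hH
        intro h _
        rw [mem_coe, mem_range]
        exact Nat.mod_lt _ hpp.pos
      rwa [card_range] at h2
    have h3 : (r + 1) * (SV H Q n).card.choose (r + 1) ≤ p * (SV H Q n).card.choose r := by
      rw [mul_comm, Nat.choose_succ_right_eq, mul_comm]
      exact Nat.mul_le_mul_right _ ((Nat.sub_le _ _).trans hcard)
    have h4 : ((r + 1 : ℕ) : ℝ) * ((SV H Q n).card.choose (r + 1) : ℕ) ≤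
        p * ((SV H Q n).card.choose r : ℕ) := by exact_mod_cast h3
    have h5 : ((r + 1 : ℕ) / p : ℝ) * ((SV H Q n).card.choose (r + 1) : ℕ) ≤
        ((SV H Q n).card.choose r : ℕ) := by
      rw [div_mul_eq_mul_div, div_le_iff₀ hp0]
      linarith
    have h6 := mul_le_mul_of_nonneg_left h5 (sq_nonneg (W n))
    linarith
  have hmain : Bin N H (r + 1) F (insert p Q) = ∑ T ∈ powersetCard (r + 1) H, ∑ n ∈ range N,
      (if ∃ h ∈ T, p ∣ n + h then 0 else F n ^ 2) * UU T Q n := by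
    rw [Bin_eq]
    refine sum_congr rfl fun T _ => sum_congr rfl fun n _ => ?_
    rw [UU_insert]
    split_ifs <;> ring
  have hstep : ∀ T ∈ powersetCard (r + 1) H, _ := fun T hT =>
    stepT hpp (hD.mul p hpm) hK hk (hD.ndvd p hpm) T
      (hH.mono (by
        have := (mem_powersetCard.1 hT).1
        exact_mod_cast this)) hF (UU_per hQM T) (UU_nonneg T Q) hη
  have hX : Bin N H (r + 1) F Q = ∑ T ∈ powersetCard (r + 1) H, ∑ n ∈ range N,
      F n ^ 2 * UU T Q n := Bin_eq _ _ _ _ _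
  have hη' : 0 < 1 / η := one_div_pos.2 hη
  constructor
  · rw [hmain]
    have h1 := sum_le_sum fun T hT => (hstep T hT).1
    refine le_trans ?_ h1
    rw [sum_sub_distrib, ← mul_sum (powersetCard (r + 1) H) (f := fun T => ∑ n ∈ range N,
      (if ∃ h ∈ T, p ∣ n + h then (F n - Av (M p) (K p) F n) ^ 2 else 0) * UU T Q n)]
    have h2 : ∑ T ∈ powersetCard (r + 1) H, (1 - (1 + η) * ((T.card : ℝ) / p)) *
        ∑ n ∈ range N, F n ^ 2 * UU T Q n =
        (1 - (1 + η) * ((r + 1 : ℕ) / p)) * Bin N H (r + 1) F Q := by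
      rw [hX, mul_sum]
      refine sum_congr rfl fun T hT => ?_
      rw [(mem_powersetCard.1 hT).2]
    rw [h2]
    have h3 := mul_le_mul_of_nonneg_left hY (by positivity : 0 ≤ 1 + 1 / η)
    linarith
  · rw [hmain]
    have h1 := sum_le_sum fun T hT => (hstep T hT).2
    refine le_trans h1 ?_
    rw [sum_add_distrib, sum_add_distrib, ← mul_sum (powersetCard (r + 1) H)
      (f := fun T => ∑ n ∈ range N,
      (if ∃ h ∈ T, p ∣ n + h then (F n - Av (M p) (K p) F n) ^ 2 else 0) * UU T Q n)]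
    have h2 : ∑ T ∈ powersetCard (r + 1) H, (1 - (1 - η) * ((T.card : ℝ) / p)) *
        ∑ n ∈ range N, F n ^ 2 * UU T Q n =
        (1 - (1 - η) * ((r + 1 : ℕ) / p)) * Bin N H (r + 1) F Q := by
      rw [hX, mul_sum]
      refine sum_congr rfl fun T hT => ?_
      rw [(mem_powersetCard.1 hT).2]
    have h3 : ∑ T ∈ powersetCard (r + 1) H, ((T.card : ℝ) / p) *
        ∑ n ∈ range N, (F n - Av (M p) (K p) F n) ^ 2 * UU T Q n =
        ((r + 1 : ℕ) / p : ℝ) * ∑ T ∈ powersetCard (r + 1) H, ∑ n ∈ range N,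
      (F n - Av (M p) (K p) F n) ^ 2 * UU T Q n := by
      rw [mul_sum]
      refine sum_congr rfl fun T hT => ?_
      rw [(mem_powersetCard.1 hT).2]
    rw [h2, h3]
    have h4 := mul_le_mul_of_nonneg_left hY hη'.le
    linarith

end Pool.Agent.Y830.SQ
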